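import Mathlib

/-!
# Two free subgroups which generate a given subgroup of `SU(n, 1)`

Ping-pong on the null vectors of the Hermitian form of signature `(n, 1)`.
-/

set_option autoImplicit false

open Matrix ComplexConjugate
open scoped Pointwise

namespace Pool.Agent.N765.HY

/-- The Hermitian form `-z₀ w̄₀ + z₁ w̄₁ + ... + zₙ w̄ₙ` of signature `(n, 1)`. -/
noncomputable def form (n : ℕ) (z w : Fin (n + 1) → ℂ) : ℂ :=
  -(z 0 * conj (w 0)) + ∑ i : Fin n, z i.succ * conj (w i.succ)

theorem form_add_left (n : ℕ) (x y w : Fin (n + 1) → ℂ) :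
    form n (x + y) w = form n x w + form n y w := by
  simp only [form, Pi.add_apply, add_mul, Finset.sum_add_distrib]; ring

theorem form_smul_left (n : ℕ) (c : ℂ) (x w : Fin (n + 1) → ℂ) :
    form n (c • x) w = c * form n x w := by
  simp only [form, Pi.smul_apply, smul_eq_mul, mul_add, Finset.mul_sum, mul_assoc]; ring

theorem form_smul_right (n : ℕ) (c : ℂ) (x w : Fin (n + 1) → ℂ) :
    form n x (c • w) = conj c * form n x w := by
  simp only [form, Pi.smul_apply, smul_eq_mul, mul_add, Finset.mul_sum, map_mul]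
  congr 1
  · ring
  · exact Finset.sum_congr rfl fun i _ => by ring

theorem form_sub_left (n : ℕ) (x y w : Fin (n + 1) → ℂ) :
    form n (x - y) w = form n x w - form n y w := by
  simp only [form, Pi.sub_apply, sub_mul, Finset.sum_sub_distrib]; ring

theorem form_norm_le (n : ℕ) (z w : Fin (n + 1) → ℂ) :
    ‖form n z w‖ ≤ (n + 1) * (‖z‖ * ‖w‖) := by
  have h : ∀ i, ‖z i * conj (w i)‖ ≤ ‖z‖ * ‖w‖ := fun i => by
    rw [norm_mul, RCLike.norm_conj]
    exact mul_le_mul (norm_le_pi_norm z i) (norm_le_pi_norm w i) (norm_nonneg _) (norm_nonneg _)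
  calc ‖form n z w‖ ≤ ‖-(z 0 * conj (w 0))‖ + ‖∑ i : Fin n, z i.succ * conj (w i.succ)‖ :=
        norm_add_le _ _
    _ ≤ ‖z‖ * ‖w‖ + ∑ _i : Fin n, ‖z‖ * ‖w‖ := by
        refine add_le_add ?_ ((norm_sum_le _ _).trans (Finset.sum_le_sum fun i _ => h _))
        rw [norm_neg]
        exact h 0
    _ = (n + 1) * (‖z‖ * ‖w‖) := by
        rw [Finset.sum_const, Finset.card_univ, Fintype.card_fin, nsmul_eq_mul]; ring

theorem form_nondeg (n : ℕ) (w : Fin (n + 1) → ℂ) (h : ∀ z, form n z w = 0) : w = 0 := by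
  funext i
  refine Fin.cases ?_ (fun i => ?_) i
  · have h0 := h (Pi.single 0 1)
    simp only [form, Pi.single_eq_same, one_mul] at h0
    have h1 : ∑ i : Fin n, (Pi.single (M := fun _ : Fin (n + 1) => ℂ) 0 1) i.succ *
        conj (w i.succ) = 0 :=
      Finset.sum_eq_zero fun i _ => by
        rw [Pi.single_eq_of_ne (Fin.succ_ne_zero i)]; simp
    rw [h1, add_zero, neg_eq_zero] at h0
    simpa using h0
  · have h0 := h (Pi.single i.succ 1)
    simp only [form] at h0
    rw [Finset.sum_eq_single i (fun j _ hj => by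
        rw [Pi.single_eq_of_ne (fun e => hj (Fin.succ_injective _ e))]; simp) (by simp),
      Pi.single_eq_same, Pi.single_eq_of_ne (Fin.succ_ne_zero i).symm] at h0
    simpa using h0

/-- Orthogonal null vectors are proportional. -/
theorem null_prop (n : ℕ) (z w : Fin (n + 1) → ℂ) (hz : form n z z = 0) (hw : form n w w = 0)
    (hw0 : w ≠ 0) (hzw : form n z w = 0) : ∃ c : ℂ, z = c • w := by
  have e1 : ∑ i : Fin n, z i.succ * conj (z i.succ) = z 0 * conj (z 0) := by
    have := hz; unfold form at this; linear_combination this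
  have e2 : ∑ i : Fin n, w i.succ * conj (w i.succ) = w 0 * conj (w 0) := by
    have := hw; unfold form at this; linear_combination this
  have e3 : ∑ i : Fin n, z i.succ * conj (w i.succ) = z 0 * conj (w 0) := by
    have := hzw; unfold form at this; linear_combination this
  have e4 : ∑ i : Fin n, w i.succ * conj (z i.succ) = w 0 * conj (z 0) := by
    have := congrArg conj e3
    simp only [map_sum, map_mul, Complex.conj_conj] at this
    rw [mul_comm (w 0), ← this]
    exact Finset.sum_congr rfl fun i _ => by ring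
  have hw00 : w 0 ≠ 0 := by
    intro h0
    apply hw0
    rw [h0, zero_mul] at e2
    have hs : ∑ i : Fin n, Complex.normSq (w i.succ) = 0 := by
      have : ((∑ i : Fin n, Complex.normSq (w i.succ) : ℝ) : ℂ) = 0 := by
        rw [← e2, Complex.ofReal_sum]
        exact Finset.sum_congr rfl fun i _ => by rw [Complex.mul_conj]
      exact_mod_cast this
    rw [Finset.sum_eq_zero_iff_of_nonneg fun i _ => Complex.normSq_nonneg _] at hs
    funext i
    refine Fin.cases h0 (fun i => ?_) i
    exact Complex.normSq_eq_zero.1 (hs i (Finset.mem_univ _))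
  refine ⟨z 0 / w 0, ?_⟩
  set c : ℂ := z 0 / w 0 with hc
  have hcw : c * w 0 = z 0 := by rw [hc]; field_simp
  have hcw' : conj c * conj (w 0) = conj (z 0) := by rw [← map_mul, hcw]
  have hs : ∑ i : Fin n, Complex.normSq (z i.succ - c * w i.succ) = 0 := by
    have : ((∑ i : Fin n, Complex.normSq (z i.succ - c * w i.succ) : ℝ) : ℂ) = 0 := by
      rw [Complex.ofReal_sum]
      have h1 : ∀ i : Fin n, ((Complex.normSq (z i.succ - c * w i.succ) : ℝ) : ℂ) =
          z i.succ * conj (z i.succ) - c * (w i.succ * conj (z i.succ)) -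
            conj c * (z i.succ * conj (w i.succ)) + c * conj c * (w i.succ * conj (w i.succ)) :=
        fun i => by
          rw [← Complex.mul_conj, map_sub, map_mul]; ring
      rw [Finset.sum_congr rfl fun i _ => h1 i, Finset.sum_add_distrib, Finset.sum_sub_distrib,
        Finset.sum_sub_distrib, ← Finset.mul_sum, ← Finset.mul_sum, ← Finset.mul_sum, e1, e2, e3, e4]
      linear_combination (-conj (z 0) + conj c * conj (w 0)) * hcw
    exact_mod_cast this
  rw [Finset.sum_eq_zero_iff_of_nonneg fun i _ => Complex.normSq_nonneg _] at hs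
  funext i
  refine Fin.cases ?_ (fun i => ?_) i
  · rw [Pi.smul_apply, smul_eq_mul, hcw]
  · have := Complex.normSq_eq_zero.1 (hs i (Finset.mem_univ _))
    rw [Pi.smul_apply, smul_eq_mul]
    exact sub_eq_zero.1 this

/-- The group `SU(n, 1)`. -/
def SU (n : ℕ) : Subgroup (SpecialLinearGroup (Fin (n + 1)) ℂ) where
  carrier := {g | ∀ z w, form n (g.1 *ᵥ z) (g.1 *ᵥ w) = form n z w}
  mul_mem' := by
    intro a b ha hb z w
    simp only [Set.mem_ofPred_eq] at ha hb
    have e : ∀ z, (a * b).1 *ᵥ z = a.1 *ᵥ (b.1 *ᵥ z) := fun z => by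
      rw [mulVec_mulVec]; rfl
    rw [e, e, ha, hb]
  one_mem' := by
    intro z w
    have e : ∀ z, (1 : SpecialLinearGroup (Fin (n + 1)) ℂ).1 *ᵥ z = z := fun z => by
      change (1 : Matrix _ _ ℂ) *ᵥ z = z
      rw [one_mulVec]
    rw [e, e]
  inv_mem' := by
    intro a ha z w
    simp only [Set.mem_ofPred_eq] at ha
    have e : ∀ z, a.1 *ᵥ ((a⁻¹).1 *ᵥ z) = z := fun z => by
      rw [mulVec_mulVec]
      have : a.1 * (a⁻¹).1 = 1 := by
        have := congrArg Subtype.val (mul_inv_cancel a)
        exact this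
      rw [this, one_mulVec]
    rw [← ha ((a⁻¹).1 *ᵥ z) ((a⁻¹).1 *ᵥ w), e, e]

end Pool.Agent.N765.HY
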