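import Pool.Agent.N765.HY.Ping

/-!
# Boosts and rotations
-/

set_option autoImplicit false

open Matrix ComplexConjugate Filter Topology

namespace Pool.Agent.N765.HY

/-- the inclusion of the first two coordinates -/
def UU (m : ℕ) : Matrix (Fin (m + 2)) (Fin 2) ℂ := fun i j => if i.val = j.val then 1 else 0

theorem UU_tr_mul (m : ℕ) : (UU m)ᵀ * UU m = 1 := by
  ext i j
  rw [Matrix.mul_apply, Fin.sum_univ_succ, Fin.sum_univ_succ]
  have h : ∑ x : Fin m, (UU m)ᵀ i x.succ.succ * UU m x.succ.succ j = 0 :=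
    Finset.sum_eq_zero fun x _ => by
      have : UU m x.succ.succ j = 0 := by
        unfold UU
        rw [if_neg]
        have := j.2
        simp only [Fin.val_succ]
        omega
      rw [this, mul_zero]
  rw [h]
  fin_cases i <;> fin_cases j <;> simp [UU, Matrix.transpose_apply]

theorem UU_mulVec (m : ℕ) (w : Fin 2 → ℂ) :
    UU m *ᵥ w = Fin.cons (w 0) (Fin.cons (w 1) fun _ => 0) := by
  funext i
  refine Fin.cases ?_ (fun i => ?_) i
  · simp [UU, Matrix.mulVec, dotProduct, Fin.sum_univ_two]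
  · refine Fin.cases ?_ (fun i => ?_) i
    · simp [UU, Matrix.mulVec, dotProduct, Fin.sum_univ_two]
    · rw [Fin.cons_succ, Fin.cons_succ]
      simp only [UU, Matrix.mulVec, dotProduct, Fin.sum_univ_two, Fin.val_succ]
      simp

theorem UUt_mulVec (m : ℕ) (z : Fin (m + 2) → ℂ) : (UU m)ᵀ *ᵥ z = ![z 0, z 1] := by
  funext j
  have h : ∀ x : Fin m, (UU m)ᵀ j x.succ.succ = 0 := fun x => by
    rw [Matrix.transpose_apply]
    unfold UU
    rw [if_neg]
    have := j.2
    simp only [Fin.val_succ]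
    omega
  rw [Matrix.mulVec, dotProduct, Fin.sum_univ_succ, Fin.sum_univ_succ]
  simp only [h, zero_mul, Finset.sum_const_zero, add_zero]
  fin_cases j <;> simp [UU, Matrix.transpose_apply]

/-- the extension of a `2 × 2` matrix by the identity -/
def em (m : ℕ) (M : Matrix (Fin 2) (Fin 2) ℂ) : Matrix (Fin (m + 2)) (Fin (m + 2)) ℂ :=
  1 + UU m * ((M - 1) * (UU m)ᵀ)

theorem em_det (m : ℕ) (M : Matrix (Fin 2) (Fin 2) ℂ) : (em m M).det = M.det := by
  unfold em
  rw [Matrix.det_one_add_mul_comm, Matrix.mul_assoc, UU_tr_mul, Matrix.mul_one, add_sub_cancel]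

theorem em_mul (m : ℕ) (M N : Matrix (Fin 2) (Fin 2) ℂ) : em m M * em m N = em m (M * N) := by
  unfold em
  have h : (UU m * ((M - 1) * (UU m)ᵀ)) * (UU m * ((N - 1) * (UU m)ᵀ)) =
      UU m * (((M - 1) * (N - 1)) * (UU m)ᵀ) := by
    calc (UU m * ((M - 1) * (UU m)ᵀ)) * (UU m * ((N - 1) * (UU m)ᵀ))
        = UU m * ((M - 1) * (((UU m)ᵀ * UU m) * ((N - 1) * (UU m)ᵀ))) := by
          simp only [Matrix.mul_assoc]
      _ = _ := by rw [UU_tr_mul, Matrix.one_mul, ← Matrix.mul_assoc (M - 1)]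
  rw [Matrix.add_mul, Matrix.mul_add, Matrix.mul_add, h, Matrix.one_mul, Matrix.one_mul,
    Matrix.mul_one]
  have h2 : M * N - 1 = (M - 1) + (N - 1) + (M - 1) * (N - 1) := by noncomm_ring
  rw [h2, Matrix.add_mul, Matrix.add_mul, Matrix.mul_add, Matrix.mul_add]
  abel

theorem em_mulVec (m : ℕ) (M : Matrix (Fin 2) (Fin 2) ℂ) (z : Fin (m + 2) → ℂ) :
    em m M *ᵥ z = Fin.cons (M 0 0 * z 0 + M 0 1 * z 1)
      (Fin.cons (M 1 0 * z 0 + M 1 1 * z 1) fun i => z i.succ.succ) := by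
  unfold em
  rw [Matrix.add_mulVec, Matrix.one_mulVec, ← Matrix.mulVec_mulVec, ← Matrix.mulVec_mulVec,
    UUt_mulVec, UU_mulVec]
  funext i
  refine Fin.cases ?_ (fun i => ?_) i
  · simp [Matrix.mulVec, dotProduct, Fin.sum_univ_two, Matrix.sub_apply]
    ring
  · refine Fin.cases ?_ (fun i => ?_) i
    · simp [Matrix.mulVec, dotProduct, Fin.sum_univ_two, Matrix.sub_apply]
      ring
    · simp

/-- the `2 × 2` matrix preserves the form -/
def Pres (M : Matrix (Fin 2) (Fin 2) ℂ) : Prop :=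
  ∀ x y x' y' : ℂ, -((M 0 0 * x + M 0 1 * y) * conj (M 0 0 * x' + M 0 1 * y')) +
    (M 1 0 * x + M 1 1 * y) * conj (M 1 0 * x' + M 1 1 * y') = -(x * conj x') + y * conj y'

theorem em_form (m : ℕ) (M : Matrix (Fin 2) (Fin 2) ℂ) (hM : Pres M) (z w : Fin (m + 2) → ℂ) :
    form (m + 1) (em m M *ᵥ z) (em m M *ᵥ w) = form (m + 1) z w := by
  rw [em_mulVec, em_mulVec]
  unfold form
  rw [Fin.sum_univ_succ, Fin.sum_univ_succ]
  simp only [Fin.cons_zero, Fin.cons_succ]
  have := hM (z 0) (z 1) (w 0) (w 1)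
  have e1 : z (Fin.succ 0) = z 1 := rfl
  have e2 : w (Fin.succ 0) = w 1 := rfl
  rw [e1, e2]
  linear_combination this

/-- the element of `SU(m + 1, 1)` -/
def emS (m : ℕ) (M : Matrix (Fin 2) (Fin 2) ℂ) (hd : M.det = 1) (hM : Pres M) : SU (m + 1) :=
  ⟨⟨em m M, by rw [em_det, hd]⟩, em_form m M hM⟩

/-- the boost -/
noncomputable def bo (t : ℝ) : Matrix (Fin 2) (Fin 2) ℂ :=
  !![(Real.cosh t : ℂ), (Real.sinh t : ℂ); (Real.sinh t : ℂ), (Real.cosh t : ℂ)]

theorem bo_sq (t : ℝ) : (Real.cosh t : ℂ) ^ 2 - (Real.sinh t : ℂ) ^ 2 = 1 := by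
  have := Real.cosh_sq t
  have h : Real.cosh t ^ 2 - Real.sinh t ^ 2 = 1 := by rw [this]; ring
  exact_mod_cast h

theorem bo_det (t : ℝ) : (bo t).det = 1 := by
  unfold bo
  rw [Matrix.det_fin_two_of]
  linear_combination bo_sq t

theorem bo_pres (t : ℝ) : Pres (bo t) := by
  intro x y x' y'
  simp only [bo, Matrix.of_apply, Matrix.cons_val_zero, Matrix.cons_val_one, Matrix.cons_val',
    Matrix.cons_val_fin_one, map_add, map_mul, Complex.conj_ofReal]
  linear_combination (-(x * conj x') + y * conj y') * bo_sq t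

theorem bo_mul (s t : ℝ) : bo s * bo t = bo (s + t) := by
  unfold bo
  rw [Matrix.mul_fin_two, Real.cosh_add, Real.sinh_add]
  ext i j
  fin_cases i <;> fin_cases j <;> simp <;> ring

theorem bo_zero : bo 0 = 1 := by
  unfold bo
  ext i j
  fin_cases i <;> fin_cases j <;> simp

/-- the rotation with parameter `s` -/
noncomputable def om (s : ℝ) : ℂ := (1 + s * Complex.I) / (Real.sqrt (1 + s ^ 2) : ℂ)

theorem om_conj (s : ℝ) : conj (om s) = (1 - s * Complex.I) / (Real.sqrt (1 + s ^ 2) : ℂ) := by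
  unfold om
  simp only [map_div₀, map_add, map_one, map_mul, Complex.conj_ofReal, Complex.conj_I]
  ring

theorem om_mul (s : ℝ) : om s * conj (om s) = 1 := by
  rw [om_conj, om]
  have h1 : (Real.sqrt (1 + s ^ 2) : ℂ) * (Real.sqrt (1 + s ^ 2) : ℂ) = 1 + s ^ 2 := by
    have : Real.sqrt (1 + s ^ 2) * Real.sqrt (1 + s ^ 2) = 1 + s ^ 2 :=
      Real.mul_self_sqrt (by positivity)
    exact_mod_cast this
  have h2 : (Real.sqrt (1 + s ^ 2) : ℂ) ≠ 0 := by
    have : Real.sqrt (1 + s ^ 2) ≠ 0 := (Real.sqrt_pos.2 (by positivity)).ne'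
    exact_mod_cast this
  rw [div_mul_div_comm, div_eq_one_iff_eq (mul_ne_zero h2 h2), h1]
  linear_combination -(s : ℂ) ^ 2 * Complex.I_sq

/-- the rotation -/
noncomputable def ro (s : ℝ) : Matrix (Fin 2) (Fin 2) ℂ := !![om s, 0; 0, conj (om s)]

theorem ro_det (s : ℝ) : (ro s).det = 1 := by
  unfold ro
  rw [Matrix.det_fin_two_of, om_mul]; ring

theorem ro_pres (s : ℝ) : Pres (ro s) := by
  intro x y x' y'
  simp only [ro, Matrix.of_apply, Matrix.cons_val_zero, Matrix.cons_val_one, Matrix.cons_val',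
    Matrix.cons_val_fin_one, map_add, map_mul, map_zero, Complex.conj_conj]
  linear_combination (-(x * conj x') + y * conj y') * om_mul s

/-- the null vectors `(1, ± 1, 0, ...)` -/
def nv (m : ℕ) (c : ℂ) : Fin (m + 2) → ℂ := Fin.cons 1 (Fin.cons c fun _ => 0)

theorem nv_null (m : ℕ) (c : ℂ) (hc : c * conj c = 1) : form (m + 1) (nv m c) (nv m c) = 0 := by
  unfold form nv
  rw [Fin.sum_univ_succ]
  simp only [Fin.cons_zero, Fin.cons_succ]
  have e1 : (Fin.cons 1 (Fin.cons c fun _ => 0) : Fin (m + 2) → ℂ) (Fin.succ 0) = c := rfl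
  simp only [map_one, mul_one, mul_zero, map_zero, Finset.sum_const_zero, add_zero]
  linear_combination hc

theorem nv_ne (m : ℕ) (c : ℂ) : nv m c ≠ 0 := by
  intro h
  have := congrFun h 0
  simp [nv] at this

end Pool.Agent.N765.HY
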