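import Pool.Agent.N765.HY.SL2

/-!
# The index of the free subgroups
-/

set_option autoImplicit false

open Matrix
open scoped Pointwise

namespace Pool.Agent.N765.HY.SL2

/-- Sanov's subgroup -/
def S : Subgroup G2 := Subgroup.closure {A 1, B 1}

theorem A_mem (c : ℤ) : A c ∈ S := by
  rw [A_zpow]
  exact S.zpow_mem (Subgroup.subset_closure (Or.inl rfl)) c

theorem B_mem (c : ℤ) : B c ∈ S := by
  rw [B_zpow]
  exact S.zpow_mem (Subgroup.subset_closure (Or.inr rfl)) c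

theorem mul_B0 (g : G2) (m : ℤ) (i : Fin 2) : (g * B m).1 i 0 = g.1 i 0 + 2 * m * g.1 i 1 := by
  change (g.1 * !![1, 0; 2 * m, 1]) i 0 = _
  simp [Matrix.mul_apply, Fin.sum_univ_two]
  ring

theorem mul_B1 (g : G2) (m : ℤ) (i : Fin 2) : (g * B m).1 i 1 = g.1 i 1 := by
  change (g.1 * !![1, 0; 2 * m, 1]) i 1 = _
  simp [Matrix.mul_apply, Fin.sum_univ_two]

theorem mul_A0 (g : G2) (m : ℤ) (i : Fin 2) : (g * A m).1 i 0 = g.1 i 0 := by
  change (g.1 * !![1, 2 * m; 0, 1]) i 0 = _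
  simp [Matrix.mul_apply, Fin.sum_univ_two]

theorem mul_A1 (g : G2) (m : ℤ) (i : Fin 2) : (g * A m).1 i 1 = g.1 i 1 + 2 * m * g.1 i 0 := by
  change (g.1 * !![1, 2 * m; 0, 1]) i 1 = _
  simp [Matrix.mul_apply, Fin.sum_univ_two]
  ring

theorem red (a b : ℤ) (hb : b ≠ 0) : ∃ m : ℤ, |a + 2 * m * b| ≤ |b| := by
  have hb' : 0 < |b| := abs_pos.2 hb
  have h1 := Int.emod_add_mul_ediv (a + |b|) (2 * |b|)
  have h2 := Int.emod_nonneg (a + |b|) (by positivity : 2 * |b| ≠ 0)
  have h3 := Int.emod_lt_of_pos (a + |b|) (by positivity : 0 < 2 * |b|)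
  set r := (a + |b|) % (2 * |b|) with hr
  set q := (a + |b|) / (2 * |b|) with hq
  have h4 : a - 2 * q * |b| = r - |b| := by linear_combination -h1
  have h5 : abs (a - 2 * q * |b|) ≤ |b| := by
    rw [h4, abs_le]; constructor <;> linarith
  rcases abs_cases b with ⟨h, _⟩ | ⟨h, _⟩
  · refine ⟨-q, ?_⟩
    have e : a + 2 * -q * b = a - 2 * q * |b| := by rw [h]; ring
    rw [e]; exact h5
  · refine ⟨q, ?_⟩
    have e : a + 2 * q * b = a - 2 * q * |b| := by rw [h]; ring
    rw [e]; exact h5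

theorem mem_S : ∀ (N : ℕ) (g : G2), (g.1 0 1).natAbs ≤ N → g.1 0 0 % 4 = 1 → g.1 0 1 % 2 = 0 →
    g.1 1 0 % 2 = 0 → g ∈ S := by
  intro N
  induction N using Nat.strong_induction_on with
  | _ N ih =>
  intro g hN h1 h2 h3
  have hdet : g.1 0 0 * g.1 1 1 - g.1 0 1 * g.1 1 0 = 1 := by
    have := g.2
    rw [Matrix.det_fin_two] at this
    exact this
  by_cases hb : g.1 0 1 = 0
  · rw [hb, zero_mul, sub_zero] at hdet
    have ha : g.1 0 0 = 1 := by
      rcases Int.eq_one_or_neg_one_of_mul_eq_one hdet with h | h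
      · exact h
      · rw [h] at h1; norm_num at h1
    have hd : g.1 1 1 = 1 := by rw [ha, one_mul] at hdet; exact hdet
    have e : g = B (g.1 1 0 / 2) := by
      apply Subtype.ext
      change g.1 = !![1, 0; 2 * (g.1 1 0 / 2), 1]
      ext i j
      fin_cases i <;> fin_cases j
      · exact ha
      · exact hb
      · change g.1 1 0 = 2 * (g.1 1 0 / 2)
        omega
      · exact hd
    rw [e]
    exact B_mem _
  · obtain ⟨m, hm⟩ := red (g.1 0 0) (g.1 0 1) hb
    set a' := g.1 0 0 + 2 * m * g.1 0 1 with ha'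
    obtain ⟨b', hb'⟩ : ∃ b', g.1 0 1 = 2 * b' := ⟨g.1 0 1 / 2, by omega⟩
    have e1 : a' = g.1 0 0 + 4 * (m * b') := by rw [ha', hb']; ring
    have h4 : a' % 4 = 1 := by omega
    have ha0 : a' ≠ 0 := by intro h; rw [h] at h4; norm_num at h4
    obtain ⟨m', hm'⟩ := red (g.1 0 1) a' ha0
    have hlt : |a'| < |g.1 0 1| := by
      refine lt_of_le_of_ne hm ?_
      intro h
      rcases abs_eq_abs.1 h with h | h
      · omega
      · omega
    have e00 : (g * B m * A m').1 0 0 = a' := by rw [mul_A0, mul_B0]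
    have e01 : (g * B m * A m').1 0 1 = g.1 0 1 + 2 * m' * a' := by
      rw [mul_A1, mul_B1, mul_B0]
    have e10 : (g * B m * A m').1 1 0 = g.1 1 0 + 2 * m * g.1 1 1 := by rw [mul_A0, mul_B0]
    have hlt2 : ((g * B m * A m').1 0 1).natAbs < (g.1 0 1).natAbs := by
      rw [e01]
      have := lt_of_le_of_lt hm' hlt
      rwa [Int.abs_eq_natAbs, Int.abs_eq_natAbs, Nat.cast_lt] at this
    have hmem : g * B m * A m' ∈ S := by
      refine ih _ (lt_of_lt_of_le hlt2 hN) _ le_rfl ?_ ?_ ?_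
      · rw [e00]; exact h4
      · rw [e01]
        have : g.1 0 1 + 2 * m' * a' = g.1 0 1 + 2 * (m' * a') := by ring
        omega
      · rw [e10]
        have : g.1 1 0 + 2 * m * g.1 1 1 = g.1 1 0 + 2 * (m * g.1 1 1) := by ring
        omega
    have e : g = g * B m * A m' * A (-m') * B (-m) := by
      rw [mul_assoc (g * B m), A_add, add_neg_cancel, A_zero, mul_one, mul_assoc, B_add,
        add_neg_cancel, B_zero, mul_one]
    rw [e]
    exact S.mul_mem (S.mul_mem hmem (A_mem _)) (B_mem _)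

theorem S_index : S.FiniteIndex := by
  have hk : (SpecialLinearGroup.map (n := Fin 2) (Int.castRingHom (ZMod 4))).ker ≤ S := by
    intro g hg
    have h1 : SpecialLinearGroup.map (n := Fin 2) (Int.castRingHom (ZMod 4)) g = 1 := hg
    have h2 : ∀ i j, ((g.1 i j : ℤ) : ZMod 4) = (1 : Matrix (Fin 2) (Fin 2) (ZMod 4)) i j := by
      intro i j
      have := congrArg (fun x : SpecialLinearGroup (Fin 2) (ZMod 4) => x.1 i j) h1
      exact this
    have e00 := h2 0 0
    have e01 := h2 0 1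
    have e10 := h2 1 0
    simp only [Matrix.one_apply_eq, ne_eq, zero_ne_one, one_ne_zero, not_false_eq_true,
      Matrix.one_apply_ne] at e00 e01 e10
    have f00 : g.1 0 0 % 4 = 1 := by
      have : ((g.1 0 0 : ℤ) : ZMod 4) = ((1 : ℤ) : ZMod 4) := by rw [e00]; simp
      have := (ZMod.intCast_eq_intCast_iff_dvd_sub _ _ 4).1 this
      omega
    have f01 : (4 : ℤ) ∣ g.1 0 1 := (ZMod.intCast_zmod_eq_zero_iff_dvd _ 4).1 e01
    have f10 : (4 : ℤ) ∣ g.1 1 0 := (ZMod.intCast_zmod_eq_zero_iff_dvd _ 4).1 e10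
    exact mem_S _ g le_rfl f00 (by omega) (by omega)
  have : (SpecialLinearGroup.map (n := Fin 2) (Int.castRingHom (ZMod 4))).ker.FiniteIndex :=
    inferInstance
  exact Subgroup.finiteIndex_of_le hk

/-- the free group of rank `k + 1` in `SL(2, ℤ)` -/
def D (k : ℕ) : Subgroup G2 := (FreeGroup.lift (gens k)).range

theorem gens_mem (k : ℕ) (i : Fin (k + 1)) : gens k i ∈ D k :=
  ⟨FreeGroup.of i, FreeGroup.lift_apply_of⟩

theorem Ak_mem (k : ℕ) (q : ℤ) : A (k * q) ∈ D k := by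
  have h : A (k * q) = A k ^ q := by
    rw [A_zpow, A_zpow (k : ℤ), _root_.zpow_mul]
  rw [h]
  exact (D k).zpow_mem (gens_mem k 0) q

theorem conj_mem (k : ℕ) (i : ℕ) (hi : i < k) : A i * B 1 * A (-(i : ℤ)) ∈ D k :=
  gens_mem k (Fin.succ ⟨i, hi⟩)

theorem cover (k : ℕ) (hk : 1 ≤ k) (s : G2) (hs : s ∈ S) : ∃ i : ℕ, i < k ∧ s * A (-(i : ℤ)) ∈ D k := by
  have key : ∀ (x : G2) (j : ℤ), x * A (-j) ∈ D k → ∃ i : ℕ, i < k ∧ x * A (-(i : ℤ)) ∈ D k := by
    intro x j hj
    have hk0 : (0 : ℤ) < k := by exact_mod_cast hk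
    have h1 := Int.emod_nonneg j hk0.ne'
    have h2 := Int.emod_lt_of_pos j hk0
    refine ⟨(j % k).toNat, by omega, ?_⟩
    have h3 : ((j % k).toNat : ℤ) = j % k := Int.toNat_of_nonneg h1
    have h4 : x * A (-((j % k).toNat : ℤ)) = x * A (-j) * A (k * (j / k)) := by
      rw [h3, mul_assoc, A_add]
      congr 2
      have := Int.emod_add_mul_ediv j k
      linear_combination -this
    rw [h4]
    exact (D k).mul_mem hj (Ak_mem k _)
  have hB : ∀ (x : G2) (i : ℕ) (c : ℤ), i < k → x * A (-(i : ℤ)) ∈ D k →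
      x * B c * A (-(i : ℤ)) ∈ D k := by
    intro x i c hi hx
    have h1 : (A i * B 1 * A (-(i : ℤ))) ^ c = A i * B c * A (-(i : ℤ)) := by
      rw [← A_inv, conj_zpow, ← B_zpow]
    have h2 : x * B c * A (-(i : ℤ)) = x * A (-(i : ℤ)) * (A i * B 1 * A (-(i : ℤ))) ^ c := by
      rw [h1, ← A_inv]; group
    rw [h2]
    exact (D k).mul_mem hx ((D k).zpow_mem (conj_mem k i hi) c)
  unfold S at hs
  induction hs using Subgroup.closure_induction_right with
  | one => exact ⟨0, by omega, by rw [Nat.cast_zero, neg_zero, A_zero, one_mul]; exact (D k).one_mem⟩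
  | mul_right x hx y hy ih =>
    obtain ⟨i, hi, h⟩ := ih
    rcases hy with rfl | rfl
    · apply key _ (i + 1)
      rw [mul_assoc, A_add]
      have : (1 : ℤ) + -(↑i + 1) = -i := by ring
      rw [this]; exact h
    · exact ⟨i, hi, hB x i 1 hi h⟩
  | mul_inv_cancel x hx y hy ih =>
    obtain ⟨i, hi, h⟩ := ih
    rcases hy with rfl | rfl
    · apply key _ (i - 1)
      rw [A_inv, mul_assoc, A_add]
      have : -(1 : ℤ) + -(↑i - 1) = -i := by ring
      rw [this]; exact h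
    · rw [B_inv]; exact ⟨i, hi, hB x i (-1) hi h⟩

theorem D_index (k : ℕ) (hk : 1 ≤ k) : (D k).FiniteIndex := by
  have := S_index
  have hfin : Finite (G2 ⧸ S) := inferInstance
  have hsur : Function.Surjective
      (fun p : (G2 ⧸ S) × Fin k => ((p.1.out * A (-((p.2 : ℕ) : ℤ)) : G2) : G2 ⧸ D k)) := by
    intro y
    obtain ⟨g, rfl⟩ := QuotientGroup.mk_surjective y
    have h1 : (QuotientGroup.mk g : G2 ⧸ S).out⁻¹ * g ∈ S :=
      QuotientGroup.eq.1 (QuotientGroup.out_eq' _)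
    obtain ⟨i, hi, h2⟩ := cover k hk _ (S.inv_mem h1)
    refine ⟨(QuotientGroup.mk g, ⟨i, hi⟩), ?_⟩
    change ((QuotientGroup.mk g : G2 ⧸ S).out * A (-(i : ℤ)) : G2 ⧸ D k) = _
    rw [QuotientGroup.eq]
    have h3 : ((QuotientGroup.mk g : G2 ⧸ S).out * A (-(i : ℤ)))⁻¹ * g =
        (((QuotientGroup.mk g : G2 ⧸ S).out⁻¹ * g)⁻¹ * A (-(i : ℤ)))⁻¹ := by
      group
    rw [h3]
    exact (D k).inv_mem h2
  have hfin2 : Finite (G2 ⧸ D k) := Finite.of_surjective _ hsur
  exact Subgroup.finiteIndex_of_finite_quotient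

/-- `D k` is free of rank `k + 1`. -/
noncomputable def equiv (k : ℕ) (hk : 1 ≤ k) : FreeGroup (Fin (k + 1)) ≃* D k :=
  MonoidHom.ofInjective (gens_inj k hk)

end Pool.Agent.N765.HY.SL2
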