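import Pool.Agent.N765.HY.Gen
import Pool.Agent.N765.HY.Idx

/-!
# The theorem
-/

set_option autoImplicit false

open Matrix

namespace Pool.Agent.N765.HY

variable {n : ℕ}

theorem exists_tuple (Γ : Subgroup (SU n)) (T : Finset (SU n))
    (hT : Subgroup.closure (T : Set (SU n)) = Γ) (k : ℕ) (hk : T.card ≤ k) :
    ∃ g : Fin k → SU n, Subgroup.closure (Set.range g) = Γ := by
  classical
  let e := T.equivFin.symm
  refine ⟨fun i => if h : (i : ℕ) < T.card then (e ⟨i, h⟩ : SU n) else 1, ?_⟩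
  rw [← hT]
  apply le_antisymm
  · rw [Subgroup.closure_le]
    rintro _ ⟨i, rfl⟩
    by_cases h : (i : ℕ) < T.card
    · simp only [h, dite_true]
      exact Subgroup.subset_closure (e ⟨i, h⟩).2
    · simp only [h, dite_false]
      exact Subgroup.one_mem _
  · refine Subgroup.closure_mono ?_
    intro x hx
    refine ⟨⟨(T.equivFin ⟨x, hx⟩ : Fin T.card), lt_of_lt_of_le (Fin.is_lt _) hk⟩, ?_⟩
    simp only [Fin.is_lt, dite_true]
    simp [e]

theorem main (Γ : Subgroup (SU n)) (hfg : Γ.FG)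
    (hlox : ∃ h ∈ Γ, ∃ (v : Fin (n + 1) → ℂ) (l : ℂ), v ≠ 0 ∧ ap h v = l • v ∧ ‖l‖ ≠ 1)
    (hne : ∀ v : Fin (n + 1) → ℂ, v ≠ 0 → form n v v = 0 → (Orb Γ v).Infinite) :
    ∃ K : ℕ, ∀ k : ℕ, K ≤ k → ∃ Δ : Subgroup (SpecialLinearGroup (Fin 2) ℤ), Δ.FiniteIndex ∧
      Nonempty (FreeGroup (Fin k) ≃* Δ) ∧ ∃ ρ : Monoid.Coprod Δ Δ →* Γ,
        Function.Surjective ρ ∧ Function.Injective (ρ.comp Monoid.Coprod.inl) ∧
        Function.Injective (ρ.comp Monoid.Coprod.inr) := by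
  obtain ⟨T, hT⟩ := hfg
  refine ⟨max T.card 2, fun k hk => ?_⟩
  have hk1 : T.card ≤ k := le_trans (le_max_left _ _) hk
  have hk2 : 2 ≤ k := le_trans (le_max_right _ _) hk
  obtain ⟨g, hg⟩ := exists_tuple Γ T hT k hk1
  obtain ⟨ρ₁, ρ₂, i1, i2, hr⟩ := gen Γ hk2 g hg hlox hne
  have r1 : ∀ x, ρ₁ x ∈ Γ := fun x => by
    rw [← hr]; exact Subgroup.mem_sup_left ⟨x, rfl⟩
  have r2 : ∀ x, ρ₂ x ∈ Γ := fun x => by
    rw [← hr]; exact Subgroup.mem_sup_right ⟨x, rfl⟩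
  obtain ⟨k', rfl⟩ : ∃ k', k = k' + 1 := ⟨k - 1, by omega⟩
  have hk' : 1 ≤ k' := by omega
  let E := SL2.equiv k' hk'
  refine ⟨SL2.D k', SL2.D_index k' hk', ⟨E⟩,
    Monoid.Coprod.lift ((ρ₁.codRestrict Γ r1).comp E.symm.toMonoidHom)
      ((ρ₂.codRestrict Γ r2).comp E.symm.toMonoidHom), ?_, ?_, ?_⟩
  · rw [← MonoidHom.range_eq_top, Monoid.Coprod.range_lift]
    have h1 : ((ρ₁.codRestrict Γ r1).comp E.symm.toMonoidHom).range.map Γ.subtype = ρ₁.range := by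
      ext x
      constructor
      · rintro ⟨_, ⟨y, rfl⟩, rfl⟩
        exact ⟨E.symm y, rfl⟩
      · rintro ⟨y, rfl⟩
        exact ⟨_, ⟨E y, rfl⟩, by simp⟩
    have h2 : ((ρ₂.codRestrict Γ r2).comp E.symm.toMonoidHom).range.map Γ.subtype = ρ₂.range := by
      ext x
      constructor
      · rintro ⟨_, ⟨y, rfl⟩, rfl⟩
        exact ⟨E.symm y, rfl⟩
      · rintro ⟨y, rfl⟩
        exact ⟨_, ⟨E y, rfl⟩, by simp⟩
    apply Subgroup.map_injective Γ.subtype_injective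
    rw [Subgroup.map_sup, h1, h2, hr, ← MonoidHom.range_eq_map, Subgroup.range_subtype]
  · rw [Monoid.Coprod.lift_comp_inl]
    intro x y hxy
    exact E.symm.injective (i1 (congrArg Subtype.val hxy))
  · rw [Monoid.Coprod.lift_comp_inr]
    intro x y hxy
    exact E.symm.injective (i2 (congrArg Subtype.val hxy))

end Pool.Agent.N765.HY
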