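import Pool.Agent.N765.HY.Ping

/-!
# Generation by two free subgroups
-/

set_option autoImplicit false

open Matrix ComplexConjugate Filter Topology
open scoped Pointwise

namespace Pool.Agent.N765.HY

variable {n : ℕ}

theorem eig_null (h : SU n) (v : Fin (n + 1) → ℂ) (l : ℂ) (hv : ap h v = l • v) (hl : ‖l‖ ≠ 1) :
    form n v v = 0 := by
  have h1 : form n v v = l * conj l * form n v v := by
    conv_lhs => rw [← ap_form h, hv, form_smul_left, form_smul_right]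
    ring
  have h2 : (1 - l * conj l) * form n v v = 0 := by linear_combination h1
  rcases mul_eq_zero.1 h2 with h3 | h3
  · exfalso
    apply hl
    rw [Complex.mul_conj] at h3
    have h4 : (Complex.normSq l : ℂ) = ((1 : ℝ) : ℂ) := by rw [Complex.ofReal_one]; linear_combination -h3
    have h5 : Complex.normSq l = 1 := Complex.ofReal_injective h4
    rw [Complex.normSq_eq_norm_sq] at h5
    nlinarith [norm_nonneg l]
  · exact h3

theorem eig_dual (h : SU n) (v : Fin (n + 1) → ℂ) (l : ℂ) (hv0 : v ≠ 0) (hv : ap h v = l • v)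
    (hl0 : l ≠ 0) : ∃ w, w ≠ 0 ∧ ap h w = (conj l)⁻¹ • w := by
  set T : (Fin (n + 1) → ℂ) →ₗ[ℂ] (Fin (n + 1) → ℂ) :=
    Matrix.mulVecLin h.1.1 - (conj l)⁻¹ • LinearMap.id with hT
  have hTz : ∀ z, T z = ap h z - (conj l)⁻¹ • z := fun z => by
    rw [hT]; rfl
  have h1 : ∀ z, form n (T z) v = 0 := by
    intro z
    have h2 : ap h⁻¹ v = l⁻¹ • v := by
      have := ap_pow_inv h v l hl0 hv 1
      simpa using this
    rw [hTz, form_sub_left, form_smul_left, form_ap, h2, form_smul_right, map_inv₀]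
    ring
  have h3 : ¬ Function.Injective T := by
    intro hinj
    have hsur : Function.Surjective T := LinearMap.injective_iff_surjective.1 hinj
    apply hv0
    apply form_nondeg n v
    intro z
    obtain ⟨y, rfl⟩ := hsur z
    exact h1 y
  rw [← LinearMap.ker_eq_bot] at h3
  obtain ⟨w, hw, hw0⟩ := Submodule.exists_mem_ne_zero_of_ne_bot h3
  refine ⟨w, hw0, ?_⟩
  have h4 : T w = 0 := hw
  rw [hTz] at h4
  exact sub_eq_zero.1 h4

/-- attracting and repelling eigenvectors -/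
theorem eig_pair (h : SU n) (v : Fin (n + 1) → ℂ) (l : ℂ) (hv0 : v ≠ 0) (hv : ap h v = l • v)
    (hl : ‖l‖ ≠ 1) : ∃ (vp vm : Fin (n + 1) → ℂ) (a b : ℂ), vp ≠ 0 ∧ vm ≠ 0 ∧
      form n vp vp = 0 ∧ form n vm vm = 0 ∧ ap h vp = a • vp ∧ ap h vm = b • vm ∧
      ‖b‖ < ‖a‖ ∧ b ≠ 0 := by
  have hl0 : l ≠ 0 := by
    rintro rfl
    rw [zero_smul] at hv
    exact ap_ne h hv0 hv
  have hlp : 0 < ‖l‖ := norm_pos_iff.2 hl0
  obtain ⟨w, hw0, hw⟩ := eig_dual h v l hv0 hv hl0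
  have hm : ‖(conj l)⁻¹‖ = ‖l‖⁻¹ := by rw [norm_inv, RCLike.norm_conj]
  have hm1 : ‖(conj l)⁻¹‖ ≠ 1 := by
    rw [hm]
    intro h1
    exact hl (inv_eq_one.1 h1)
  have hc0 : (conj l)⁻¹ ≠ 0 := by
    rw [← norm_pos_iff, hm]; exact inv_pos.2 hlp
  have n1 := eig_null h v l hv hl
  have n2 := eig_null h w _ hw hm1
  rcases lt_or_gt_of_ne hl with h1 | h1
  · refine ⟨w, v, _, _, hw0, hv0, n2, n1, hw, hv, ?_, hl0⟩
    rw [hm]
    have : 1 < ‖l‖⁻¹ := (one_lt_inv₀ hlp).2 h1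
    linarith
  · refine ⟨v, w, _, _, hv0, hw0, n1, n2, hv, hw, ?_, hc0⟩
    rw [hm]
    have : ‖l‖⁻¹ < 1 := inv_lt_one_of_one_lt₀ h1
    linarith

/-- the points of the orbit of the line of `v` -/
def Orb (Γ : Subgroup (SU n)) (v : Fin (n + 1) → ℂ) :
    Set (Submodule ℂ (Fin (n + 1) → ℂ)) := Set.range fun g : Γ => Ln (ap g.1 v)

theorem pick (Γ : Subgroup (SU n)) (v : Fin (n + 1) → ℂ) (hv : (Orb Γ v).Infinite) (g : SU n)
    (F : Set (Submodule ℂ (Fin (n + 1) → ℂ))) (hF : F.Finite) :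
    ∃ t ∈ Γ, Ln (ap t v) ∉ F ∧ Ln (ap g (ap t v)) ∉ F := by
  by_contra hcon
  push Not at hcon
  apply hv
  refine (hF.union (hF.image fun M => M.map (Matrix.mulVecLin (g⁻¹).1.1))).subset ?_
  rintro _ ⟨t, rfl⟩
  by_cases h1 : Ln (ap t.1 v) ∈ F
  · exact Or.inl h1
  · right
    refine ⟨_, hcon t.1 t.2 h1, ?_⟩
    change Submodule.map _ (Submodule.span ℂ {ap g (ap t.1 v)}) = _
    rw [Submodule.map_span, Set.image_singleton]
    change Submodule.span ℂ {ap g⁻¹ (ap g (ap t.1 v))} = _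
    rw [ap_inv_ap]

theorem sel (Γ : Subgroup (SU n)) (v : Fin (n + 1) → ℂ) (hv : (Orb Γ v).Infinite) (k : ℕ) :
    ∀ (g : Fin k → SU n) (F : Set (Submodule ℂ (Fin (n + 1) → ℂ))), F.Finite →
    ∃ t : Fin k → SU n, (∀ i, t i ∈ Γ) ∧
      (∀ i j, i ≠ j → Ln (ap (t i) v) ≠ Ln (ap (t j) v)) ∧ (∀ i, Ln (ap (t i) v) ∉ F) ∧
      (∀ i j, i ≠ j → Ln (ap (g i) (ap (t i) v)) ≠ Ln (ap (g j) (ap (t j) v))) ∧
      ∀ i, Ln (ap (g i) (ap (t i) v)) ∉ F := by
  induction k with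
  | zero =>
    intro g F _
    exact ⟨fun i => i.elim0, fun i => i.elim0, fun i => i.elim0, fun i => i.elim0,
      fun i => i.elim0, fun i => i.elim0⟩
  | succ k ih =>
    intro g F hF
    obtain ⟨t₀, ht₀, h1, h2⟩ := pick Γ v hv (g 0) F hF
    obtain ⟨t, ht, a1, a2, a3, a4⟩ := ih (fun i => g i.succ)
      (insert (Ln (ap t₀ v)) (insert (Ln (ap (g 0) (ap t₀ v))) F)) ((hF.insert _).insert _)
    have b2 : ∀ i, Ln (ap (t i) v) ≠ Ln (ap t₀ v) := fun i e => a2 i (Or.inl e)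
    have b4 : ∀ i, Ln (ap (g i.succ) (ap (t i) v)) ≠ Ln (ap (g 0) (ap t₀ v)) :=
      fun i e => a4 i (Or.inr (Or.inl e))
    refine ⟨Fin.cons t₀ t, ?_, ?_, ?_, ?_, ?_⟩
    · intro i
      refine Fin.cases ?_ (fun i => ?_) i
      · exact ht₀
      · exact ht i
    · intro i j
      refine Fin.cases ?_ (fun i => ?_) i
      · refine Fin.cases ?_ (fun j => ?_) j
        · intro h; exact absurd rfl h
        · intro _; exact (b2 j).symm
      · refine Fin.cases ?_ (fun j => ?_) j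
        · intro _; exact b2 i
        · intro h; exact a1 i j fun e => h (by rw [e])
    · intro i
      refine Fin.cases ?_ (fun i => ?_) i
      · exact h1
      · intro e; exact a2 i (Or.inr (Or.inr e))
    · intro i j
      refine Fin.cases ?_ (fun i => ?_) i
      · refine Fin.cases ?_ (fun j => ?_) j
        · intro h; exact absurd rfl h
        · intro _; exact (b4 j).symm
      · refine Fin.cases ?_ (fun j => ?_) j
        · intro _; exact b4 i
        · intro h; exact a3 i j fun e => h (by rw [e])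
    · intro i
      refine Fin.cases ?_ (fun i => ?_) i
      · exact h2
      · intro e; exact a4 i (Or.inr (Or.inr e))

/-- A group generated by `k` elements is generated by two free subgroups of rank `k`. -/
theorem gen (Γ : Subgroup (SU n)) {k : ℕ} (hk : 2 ≤ k) (g : Fin k → SU n)
    (hg : Subgroup.closure (Set.range g) = Γ)
    (hlox : ∃ h ∈ Γ, ∃ (v : Fin (n + 1) → ℂ) (l : ℂ), v ≠ 0 ∧ ap h v = l • v ∧ ‖l‖ ≠ 1)
    (hne : ∀ v : Fin (n + 1) → ℂ, v ≠ 0 → form n v v = 0 → (Orb Γ v).Infinite) :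
    ∃ ρ₁ ρ₂ : FreeGroup (Fin k) →* SU n, Function.Injective ρ₁ ∧ Function.Injective ρ₂ ∧
      ρ₁.range ⊔ ρ₂.range = Γ := by
  obtain ⟨h, hh, v, l, hv0, hv, hl⟩ := hlox
  obtain ⟨vp, vm, a, b, hp0, hm0, np, nm, hp, hm, hab, hb⟩ := eig_pair h v l hv0 hv hl
  obtain ⟨s, hsΓ, s1, -, -, -⟩ := sel Γ vm (hne vm hm0 nm) k (fun _ => 1) ∅ Set.finite_empty
  obtain ⟨t, htΓ, t1, t2, t3, t4⟩ := sel Γ vp (hne vp hp0 np) k g
    (Set.range fun j => Ln (ap (s j) vm)) (Set.finite_range _)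
  have p1 := pp hk h vp vm a b hp hm hab hb hp0 hm0 np nm t s t1 s1
    (fun i j e => t2 i ⟨j, e.symm⟩)
  have p2 := pp hk h vp vm a b hp hm hab hb hp0 hm0 np nm (fun i => g i * t i) s
    (fun i j hij => by rw [ap_mul, ap_mul]; exact t3 i j hij) s1
    (fun i j e => t4 i ⟨j, by rw [← ap_mul]; exact e.symm⟩)
  obtain ⟨m, m1, m2⟩ := (p1.and p2).exists
  have hgΓ : ∀ i, g i ∈ Γ := fun i => by
    rw [← hg]; exact Subgroup.subset_closure ⟨i, rfl⟩
  refine ⟨_, _, m1, m2, le_antisymm (sup_le ?_ ?_) ?_⟩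
  · rw [FreeGroup.range_lift_eq_closure, Subgroup.closure_le]
    rintro _ ⟨i, rfl⟩
    exact Γ.mul_mem (Γ.mul_mem (htΓ i) (Γ.pow_mem hh m)) (Γ.inv_mem (hsΓ i))
  · rw [FreeGroup.range_lift_eq_closure, Subgroup.closure_le]
    rintro _ ⟨i, rfl⟩
    exact Γ.mul_mem (Γ.mul_mem (Γ.mul_mem (hgΓ i) (htΓ i)) (Γ.pow_mem hh m)) (Γ.inv_mem (hsΓ i))
  · rw [← hg, Subgroup.closure_le]
    rintro _ ⟨i, rfl⟩
    have e : g i = (FreeGroup.lift fun i => g i * t i * h ^ m * (s i)⁻¹) (FreeGroup.of i) *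
        ((FreeGroup.lift fun i => t i * h ^ m * (s i)⁻¹) (FreeGroup.of i))⁻¹ := by
      rw [FreeGroup.lift_apply_of, FreeGroup.lift_apply_of]
      group
    rw [e]
    exact Subgroup.mul_mem _ (Subgroup.mem_sup_right ⟨_, rfl⟩)
      (Subgroup.inv_mem _ (Subgroup.mem_sup_left ⟨_, rfl⟩))

end Pool.Agent.N765.HY
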