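import Mathlib

/-!
# Lattices and Poincaré recurrence
-/

set_option autoImplicit false

open MeasureTheory Topology Filter

namespace Pool.Agent.N765.HY

/-- `G/Γ` carries a nonzero finite Borel measure which is invariant under `G`. -/
def FiniteCovolume {G : Type*} [Group G] [TopologicalSpace G] (Γ : Subgroup G) : Prop :=
  ∃ μ : @Measure (G ⧸ Γ) (borel (G ⧸ Γ)), @IsFiniteMeasure _ (borel (G ⧸ Γ)) μ ∧ μ ≠ 0 ∧
    ∀ g : G, @Measure.map _ _ (borel (G ⧸ Γ)) (borel (G ⧸ Γ)) (fun x => g • x) μ = μ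

/-- The Selberg property. -/
theorem selberg {G : Type*} [Group G] [TopologicalSpace G] [IsTopologicalGroup G]
    [SecondCountableTopology G] (Γ : Subgroup G) (hΓ : FiniteCovolume Γ) (a : G) (W : Set G)
    (hW : IsOpen W) (h1 : (1 : G) ∈ W) (N : ℕ) :
    ∃ k > N, ∃ w₁ ∈ W, ∃ w₂ ∈ W, w₂⁻¹ * a ^ k * w₁ ∈ Γ := by
  letI : MeasurableSpace (G ⧸ Γ) := borel (G ⧸ Γ)
  haveI : BorelSpace (G ⧸ Γ) := ⟨rfl⟩
  obtain ⟨μ, hfin, hne, hinv⟩ := hΓ
  haveI : IsFiniteMeasure μ := hfin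
  set U : Set (G ⧸ Γ) := (fun g : G => (g : G ⧸ Γ)) '' W with hU
  have hUo : IsOpen U := QuotientGroup.isOpenMap_coe W hW
  have hcont : ∀ g : G, Continuous fun x : G ⧸ Γ => g • x := fun g => continuous_const_smul g
  have hU0 : μ U ≠ 0 := by
    intro h0
    apply hne
    have hT := TopologicalSpace.isOpen_iUnion_countable (fun g : G => {x : G | g⁻¹ * x ∈ W})
      (fun g => hW.preimage (continuous_const_mul g⁻¹))
    obtain ⟨T, hTc, hTu⟩ := hT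
    rw [← Measure.measure_univ_eq_zero]
    have hcov : (Set.univ : Set (G ⧸ Γ)) ⊆ ⋃ g ∈ T, (fun x : G ⧸ Γ => g⁻¹ • x) ⁻¹' U := by
      intro y _
      obtain ⟨x, rfl⟩ := QuotientGroup.mk_surjective y
      have hx : x ∈ ⋃ g ∈ T, {x : G | g⁻¹ * x ∈ W} := by
        rw [hTu]
        refine Set.mem_iUnion.2 ⟨x, ?_⟩
        change x⁻¹ * x ∈ W
        rwa [inv_mul_cancel]
      obtain ⟨g, hg, hxg⟩ := Set.mem_iUnion₂.1 hx
      exact Set.mem_iUnion₂.2 ⟨g, hg, ⟨g⁻¹ * x, hxg, rfl⟩⟩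
    refine measure_mono_null hcov ((measure_biUnion_null_iff hTc).2 fun g _ => ?_)
    rw [← Measure.map_apply (hcont g⁻¹).measurable hUo.measurableSet, hinv g⁻¹]
    exact h0
  have hmp : MeasurePreserving (fun x : G ⧸ Γ => a • x) μ μ := ⟨(hcont a).measurable, hinv a⟩
  obtain ⟨k, hk, hk0⟩ := hmp.conservative.exists_gt_measure_inter_ne_zero
    hUo.measurableSet.nullMeasurableSet hU0 N
  obtain ⟨x, ⟨w₁, hw₁, rfl⟩, hx2⟩ := nonempty_of_measure_ne_zero hk0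
  obtain ⟨w₂, hw₂, h2⟩ := hx2
  refine ⟨k, hk, w₁, hw₁, w₂, hw₂, ?_⟩
  have h3 : (fun x : G ⧸ Γ => a • x)^[k] (w₁ : G ⧸ Γ) = ((a ^ k * w₁ : G) : G ⧸ Γ) := by
    rw [smul_iterate]
    rfl
  change (w₂ : G ⧸ Γ) = (fun x : G ⧸ Γ => a • x)^[k] (w₁ : G ⧸ Γ) at h2
  rw [h3, QuotientGroup.eq] at h2
  rw [mul_assoc]
  exact h2

end Pool.Agent.N765.HY
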