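import Pool.Agent.N765.HY.Emb
import Pool.Agent.N765.HY.Rec
import Pool.Agent.N765.HY.Gen

/-!
# Lattices of `SU(n, 1)` are non-elementary
-/

set_option autoImplicit false

open Matrix ComplexConjugate Filter Topology

namespace Pool.Agent.N765.HY

theorem om_inj (s t : ℝ) (h : om s * conj (om t) = conj (om s) * om t) : s = t := by
  rw [om_conj, om_conj, om, om] at h
  have h2 : ∀ s : ℝ, (Real.sqrt (1 + s ^ 2) : ℂ) ≠ 0 := fun s => by
    have : Real.sqrt (1 + s ^ 2) ≠ 0 := (Real.sqrt_pos.2 (by positivity)).ne'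
    exact_mod_cast this
  rw [div_mul_div_comm, div_mul_div_comm, div_left_inj' (mul_ne_zero (h2 s) (h2 t))] at h
  have h3 : Complex.I * ((s : ℂ) - t) = 0 := by linear_combination (1 / 2) * h
  rcases mul_eq_zero.1 h3 with h4 | h4
  · exact absurd h4 Complex.I_ne_zero
  · exact_mod_cast sub_eq_zero.1 h4

/-- the boost in `SU(m + 1, 1)` -/
noncomputable def boS (m : ℕ) (t : ℝ) : SU (m + 1) := emS m (bo t) (bo_det t) (bo_pres t)

/-- the rotation in `SU(m + 1, 1)` -/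
noncomputable def roS (m : ℕ) (s : ℝ) : SU (m + 1) := emS m (ro s) (ro_det s) (ro_pres s)

theorem boS_pow (m : ℕ) (k : ℕ) : (boS m 1 ^ k).1.1 = em m (bo k) := by
  induction k with
  | zero =>
    rw [pow_zero, Nat.cast_zero, bo_zero]
    change (1 : Matrix _ _ ℂ) = em m 1
    unfold em
    rw [sub_self, Matrix.zero_mul, Matrix.mul_zero, add_zero]
  | succ k ih =>
    rw [pow_succ]
    change (boS m 1 ^ k).1.1 * em m (bo 1) = _
    rw [ih, em_mul, bo_mul, Nat.cast_add, Nat.cast_one]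

theorem boS_p (m : ℕ) (t : ℝ) : ap (boS m t) (nv m 1) = (Real.exp t : ℂ) • nv m 1 := by
  change em m (bo t) *ᵥ nv m 1 = _
  rw [em_mulVec]
  have e1 : nv m 1 1 = 1 := rfl
  have e0 : nv m 1 0 = 1 := rfl
  have h : (Real.exp t : ℂ) = (Real.cosh t : ℂ) + (Real.sinh t : ℂ) := by
    rw [← Complex.ofReal_add, Real.cosh_add_sinh]
  funext i
  refine Fin.cases ?_ (fun i => ?_) i
  · simp only [Fin.cons_zero, Pi.smul_apply, e0, e1, h, bo]
    simp
  · refine Fin.cases ?_ (fun i => ?_) i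
    · simp only [Fin.cons_zero, Fin.cons_succ, Pi.smul_apply, e0, e1, h, bo]
      have e1' : nv m 1 (Fin.succ 0) = 1 := rfl
      rw [e1']
      simp
    · have e2 : nv m 1 i.succ.succ = 0 := rfl
      simp only [Fin.cons_succ, Pi.smul_apply, e2, smul_zero]

theorem boS_m (m : ℕ) (t : ℝ) : ap (boS m t) (nv m (-1)) = (Real.exp (-t) : ℂ) • nv m (-1) := by
  change em m (bo t) *ᵥ nv m (-1) = _
  rw [em_mulVec]
  have e1 : nv m (-1) 1 = -1 := rfl
  have e0 : nv m (-1) 0 = 1 := rfl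
  have h : (Real.exp (-t) : ℂ) = (Real.cosh t : ℂ) - (Real.sinh t : ℂ) := by
    rw [← Complex.ofReal_sub, Real.cosh_sub_sinh]
  funext i
  refine Fin.cases ?_ (fun i => ?_) i
  · simp only [Fin.cons_zero, Pi.smul_apply, e0, e1, h, bo]
    simp
    rw [← Complex.cosh_sub_sinh]
    ring
  · refine Fin.cases ?_ (fun i => ?_) i
    · simp only [Fin.cons_zero, Fin.cons_succ, Pi.smul_apply, e0, e1, h, bo]
      have e1' : nv m (-1) (Fin.succ 0) = -1 := rfl
      rw [e1']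
      simp
      rw [← Complex.cosh_sub_sinh]
      ring
    · have e2 : nv m (-1) i.succ.succ = 0 := rfl
      simp only [Fin.cons_succ, Pi.smul_apply, e2, smul_zero]

theorem roS_nv (m : ℕ) (s : ℝ) (c : ℂ) :
    ap (roS m s) (nv m c) = Fin.cons (om s) (Fin.cons (conj (om s) * c) fun _ => 0) := by
  change em m (ro s) *ᵥ nv m c = _
  rw [em_mulVec]
  have e1 : nv m c 1 = c := rfl
  have e0 : nv m c 0 = 1 := rfl
  funext i
  refine Fin.cases ?_ (fun i => ?_) i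
  · simp only [Fin.cons_zero, e0, e1, ro]
    simp
  · refine Fin.cases ?_ (fun i => ?_) i
    · simp only [Fin.cons_zero, Fin.cons_succ, e0, e1, ro]
      simp
    · rfl

theorem roS_inj (m : ℕ) (c : ℂ) (hc : c ≠ 0) (s t : ℝ)
    (h : Ln (ap (roS m s) (nv m c)) = Ln (ap (roS m t) (nv m c))) : s = t := by
  have h1 : ap (roS m s) (nv m c) ∈ Ln (ap (roS m t) (nv m c)) := by
    rw [← h]; exact Submodule.mem_span_singleton_self _
  obtain ⟨d, hd⟩ := Submodule.mem_span_singleton.1 h1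
  rw [roS_nv, roS_nv] at hd
  have h2 := congrFun hd 0
  have h3 := congrFun hd (Fin.succ 0)
  simp only [Pi.smul_apply, Fin.cons_zero, Fin.cons_succ, smul_eq_mul] at h2 h3
  have h4 : d * conj (om t) = conj (om s) := by
    have : (d * conj (om t) - conj (om s)) * c = 0 := by linear_combination h3
    rcases mul_eq_zero.1 this with h5 | h5
    · exact sub_eq_zero.1 h5
    · exact absurd h5 hc
  apply om_inj
  calc om s * conj (om t) = d * om t * conj (om t) := by rw [h2]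
    _ = (d * conj (om t)) * om t := by ring
    _ = conj (om s) * om t := by rw [h4]

theorem form_sub_right (n : ℕ) (x w w' : Fin (n + 1) → ℂ) :
    form n x (w - w') = form n x w - form n x w' := by
  simp only [form, Pi.sub_apply, map_sub, mul_sub, Finset.sum_sub_distrib]; ring

theorem ap_cont {n : ℕ} (u : Fin (n + 1) → ℂ) : Continuous fun w : SU n => ap w u := by
  have h1 : Continuous fun w : SU n => (w.1 : SpecialLinearGroup (Fin (n + 1)) ℂ) :=
    continuous_subtype_val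
  have h2 : Continuous fun g : SpecialLinearGroup (Fin (n + 1)) ℂ => g.1 :=
    SpecialLinearGroup.isClosedEmbedding_val.continuous
  exact (h2.comp h1).matrix_mulVec continuous_const

/-- a subgroup with the Selberg property -/
def Sel {n : ℕ} (Γ : Subgroup (SU n)) : Prop :=
  ∀ (a : SU n) (W : Set (SU n)), IsOpen W → 1 ∈ W → ∀ N : ℕ,
    ∃ k > N, ∃ w₁ ∈ W, ∃ w₂ ∈ W, w₂⁻¹ * a ^ k * w₁ ∈ Γ

theorem away {n : ℕ} (F : Set (Submodule ℂ (Fin (n + 1) → ℂ))) (hF : F.Finite)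
    (hF2 : ∀ L ∈ F, ∃ x : Fin (n + 1) → ℂ, x ≠ 0 ∧ form n x x = 0 ∧ L = Ln x)
    (v : Fin (n + 1) → ℂ) (hv0 : v ≠ 0) (hv : form n v v = 0) (hvF : Ln v ∉ F) :
    ∀ᶠ c in 𝓝[>] (0 : ℝ), ∀ L ∈ F, ∀ x ∈ L, c * ‖x‖ ≤ ‖form n x v‖ := by
  rw [eventually_all_finite hF]
  intro L hL
  obtain ⟨x₀, hx0, hxn, rfl⟩ := hF2 L hL
  have h1 : form n x₀ v ≠ 0 := by
    intro h
    obtain ⟨c, hc⟩ := null_prop n x₀ v hxn hv hv0 h
    apply hvF
    rw [← Ln_smul c v (hc ▸ hx0), ← hc]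
    exact hL
  have h2 : 0 < ‖form n x₀ v‖ := norm_pos_iff.2 h1
  have h3 : 0 < ‖x₀‖ := norm_pos_iff.2 hx0
  have hev : ∀ᶠ c in 𝓝[>] (0 : ℝ), c < ‖form n x₀ v‖ / ‖x₀‖ :=
    (eventually_lt_nhds (by positivity : (0 : ℝ) < ‖form n x₀ v‖ / ‖x₀‖)).filter_mono
      nhdsWithin_le_nhds
  filter_upwards [hev] with c hc x hx
  obtain ⟨d, rfl⟩ := Submodule.mem_span_singleton.1 hx
  rw [form_smul_left, norm_smul, norm_mul]
  have h4 : c * ‖x₀‖ ≤ ‖form n x₀ v‖ := ((lt_div_iff₀ h3).1 hc).le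
  calc c * (‖d‖ * ‖x₀‖) = ‖d‖ * (c * ‖x₀‖) := by ring
    _ ≤ ‖d‖ * ‖form n x₀ v‖ := mul_le_mul_of_nonneg_left h4 (norm_nonneg _)

theorem good_rot (m : ℕ) (F : Set (Submodule ℂ (Fin (m + 1 + 1) → ℂ))) (hF : F.Finite) :
    ∃ s : ℝ, Ln (ap (roS m s) (nv m 1)) ∉ F ∧ Ln (ap (roS m s) (nv m (-1))) ∉ F := by
  have h1 : {j : ℕ | Ln (ap (roS m j) (nv m 1)) ∈ F}.Finite :=
    hF.preimage fun i _ j _ h => by
      have := roS_inj m 1 one_ne_zero i j h
      exact_mod_cast this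
  have h2 : {j : ℕ | Ln (ap (roS m j) (nv m (-1))) ∈ F}.Finite :=
    hF.preimage fun i _ j _ h => by
      have := roS_inj m (-1) (neg_ne_zero.2 one_ne_zero) i j h
      exact_mod_cast this
  obtain ⟨j, hj⟩ := (h1.union h2).infinite_compl.nonempty
  exact ⟨j, fun h => hj (Or.inl h), fun h => hj (Or.inr h)⟩

/-- No finite orbit at infinity. -/
theorem no_finite (m : ℕ) (Γ : Subgroup (SU (m + 1))) (hS : Sel Γ) (u : Fin (m + 1 + 1) → ℂ)
    (hu0 : u ≠ 0) (hu : form (m + 1) u u = 0) : (Orb Γ u).Infinite := by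
  by_contra hcon
  have hF : (Orb Γ u).Finite := Set.not_infinite.1 hcon
  obtain ⟨s, hsp, hsm⟩ := good_rot m (Orb Γ u) hF
  set r := roS m s with hr
  set vp := ap r (nv m 1) with hvp
  set vm := ap r (nv m (-1)) with hvm
  have hvp0 : vp ≠ 0 := ap_ne r (nv_ne m 1)
  have hvm0 : vm ≠ 0 := ap_ne r (nv_ne m (-1))
  have hvpn : form (m + 1) vp vp = 0 := by rw [hvp, ap_form]; exact nv_null m 1 (by simp)
  have hvmn : form (m + 1) vm vm = 0 := by rw [hvm, ap_form]; exact nv_null m (-1) (by simp)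
  set a : SU (m + 1) := r * boS m 1 * r⁻¹ with ha
  have hap : ap a vp = (Real.exp 1 : ℂ) • vp := by
    rw [ha, hvp, ap_mul, ap_inv_ap, ap_mul, boS_p, ap_smul]
  have ham : ap a vm = (Real.exp (-1) : ℂ) • vm := by
    rw [ha, hvm, ap_mul, ap_inv_ap, ap_mul, boS_m, ap_smul]
  have hexp : (Real.exp 1 : ℂ) ≠ 0 := by exact_mod_cast (Real.exp_pos 1).ne'
  have hexm : (Real.exp (-1) : ℂ) ≠ 0 := by exact_mod_cast (Real.exp_pos (-1)).ne'
  have hF2 : ∀ L ∈ Orb Γ u, ∃ x : Fin (m + 1 + 1) → ℂ, x ≠ 0 ∧ form (m + 1) x x = 0 ∧ L = Ln x := by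
    rintro _ ⟨g, rfl⟩
    exact ⟨ap g.1 u, ap_ne _ hu0, by rw [ap_form, hu], rfl⟩
  obtain ⟨c, ⟨hcp, hcm⟩, hc0⟩ := (((away _ hF hF2 vp hvp0 hvpn hsp).and
    (away _ hF hF2 vm hvm0 hvmn hsm)).and self_mem_nhdsWithin).exists
  have hc : (0 : ℝ) < c := hc0
  have huL : Ln u ∈ Orb Γ u := ⟨1, by
    change Ln (ap (1 : SU (m + 1)) u) = Ln u
    rw [ap_one]⟩
  have hu1 : 0 < ‖u‖ := norm_pos_iff.2 hu0
  set C : ℝ := (((m + 1 : ℕ) : ℝ) + 1) with hC
  have hCpos : 0 < C := by positivity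
  have hfl : ∀ z w : Fin (m + 1 + 1) → ℂ, ‖form (m + 1) z w‖ ≤ C * (‖z‖ * ‖w‖) :=
    fun z w => form_norm_le (m + 1) z w
  set M : ℝ := ‖vm‖ + 1 with hM
  set M' : ℝ := ‖form (m + 1) u vp‖ + 1 with hM'
  have hMpos : 0 < M := by positivity
  have hM'pos : 0 < M' := by positivity
  set ε : ℝ := c / (2 * C) with hε
  have hεpos : 0 < ε := by positivity
  let W : Set (SU (m + 1)) := {w | c / 2 * ‖u‖ < ‖form (m + 1) (ap w u) vm‖ ∧
    ‖vp - ap w⁻¹ vp‖ < ε ∧ ‖ap w⁻¹ vm‖ < M ∧ ‖form (m + 1) (ap w u) vp‖ < M'}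
  have hinvc : Continuous fun w : SU (m + 1) => w⁻¹ := continuous_inv
  have hWo : IsOpen W := by
    have c1 : Continuous fun w : SU (m + 1) => ‖form (m + 1) (ap w u) vm‖ :=
      ((form_continuous vm).comp (ap_cont u)).norm
    have c2 : Continuous fun w : SU (m + 1) => ‖vp - ap w⁻¹ vp‖ :=
      (continuous_const.sub ((ap_cont vp).comp hinvc)).norm
    have c3 : Continuous fun w : SU (m + 1) => ‖ap w⁻¹ vm‖ := ((ap_cont vm).comp hinvc).norm
    have c4 : Continuous fun w : SU (m + 1) => ‖form (m + 1) (ap w u) vp‖ :=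
      ((form_continuous vp).comp (ap_cont u)).norm
    exact (isOpen_lt continuous_const c1).inter ((isOpen_lt c2 continuous_const).inter
      ((isOpen_lt c3 continuous_const).inter (isOpen_lt c4 continuous_const)))
  have hW1 : (1 : SU (m + 1)) ∈ W := by
    have e1 : ap (1 : SU (m + 1)) u = u := ap_one u
    have e2 : ap (1 : SU (m + 1))⁻¹ vp = vp := by rw [inv_one]; exact ap_one vp
    have e3 : ap (1 : SU (m + 1))⁻¹ vm = vm := by rw [inv_one]; exact ap_one vm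
    refine ⟨?_, ?_, ?_, ?_⟩
    · rw [e1]
      have := hcm _ huL u (Submodule.mem_span_singleton_self u)
      have h2 : 0 < c * ‖u‖ := by positivity
      linarith
    · rw [e2, sub_self, norm_zero]; exact hεpos
    · rw [e3]; linarith
    · rw [e1]; linarith
  -- the time
  obtain ⟨N, hN⟩ := exists_nat_gt (2 * M' / c / (c / 2 * ‖u‖ / (C * M)))
  obtain ⟨k, hk, w₁, hw₁, w₂, hw₂, hγ⟩ := hS a W hWo hW1 N
  set x := ap (w₂⁻¹ * a ^ k * w₁) u with hx
  have hxL : Ln x ∈ Orb Γ u := ⟨⟨_, hγ⟩, rfl⟩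
  have hcx := hcp _ hxL x (Submodule.mem_span_singleton_self x)
  have k1 : form (m + 1) x (ap w₂⁻¹ vp) = conj ((Real.exp 1 : ℂ) ^ k)⁻¹ * form (m + 1) (ap w₁ u) vp := by
    rw [hx, ap_mul, ap_mul, ap_form, form_ap, ap_pow_inv a vp _ hexp hap k, form_smul_right]
  have k2 : form (m + 1) x (ap w₂⁻¹ vm) =
      conj ((Real.exp (-1) : ℂ) ^ k)⁻¹ * form (m + 1) (ap w₁ u) vm := by
    rw [hx, ap_mul, ap_mul, ap_form, form_ap, ap_pow_inv a vm _ hexm ham k, form_smul_right]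
  have n1 : ‖conj ((Real.exp 1 : ℂ) ^ k)⁻¹‖ ≤ 1 := by
    rw [RCLike.norm_conj, norm_inv, norm_pow, Complex.norm_real, Real.norm_eq_abs,
      abs_of_pos (Real.exp_pos 1)]
    exact inv_le_one_of_one_le₀ (one_le_pow₀ (Real.one_le_exp zero_le_one))
  have n2 : (k : ℝ) ≤ ‖conj ((Real.exp (-1) : ℂ) ^ k)⁻¹‖ := by
    rw [RCLike.norm_conj, norm_inv, norm_pow, Complex.norm_real, Real.norm_eq_abs,
      abs_of_pos (Real.exp_pos _), Real.exp_neg, inv_pow, inv_inv, ← Real.exp_nat_mul, mul_one]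
    have := Real.add_one_le_exp (k : ℝ)
    linarith
  have b1 : ‖form (m + 1) x (ap w₂⁻¹ vp)‖ ≤ M' := by
    rw [k1, norm_mul]
    have := hw₁.2.2.2
    calc _ ≤ 1 * ‖form (m + 1) (ap w₁ u) vp‖ := mul_le_mul_of_nonneg_right n1 (norm_nonneg _)
      _ ≤ M' := by rw [one_mul]; exact this.le
  have b2 : k * (c / 2 * ‖u‖) ≤ C * M * ‖x‖ := by
    calc (k : ℝ) * (c / 2 * ‖u‖) ≤ ‖form (m + 1) x (ap w₂⁻¹ vm)‖ := by
          rw [k2, norm_mul]
          exact mul_le_mul n2 hw₁.1.le (by positivity) (norm_nonneg _)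
      _ ≤ C * (‖x‖ * ‖ap w₂⁻¹ vm‖) := hfl _ _
      _ ≤ C * (‖x‖ * M) := by
          refine mul_le_mul_of_nonneg_left ?_ hCpos.le
          exact mul_le_mul_of_nonneg_left hw₂.2.2.1.le (norm_nonneg _)
      _ = C * M * ‖x‖ := by ring
  have b3 : c * ‖x‖ ≤ M' + c / 2 * ‖x‖ := by
    have e : form (m + 1) x vp = form (m + 1) x (ap w₂⁻¹ vp) + form (m + 1) x (vp - ap w₂⁻¹ vp) := by
      rw [form_sub_right]; ring
    calc c * ‖x‖ ≤ ‖form (m + 1) x vp‖ := hcx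
      _ ≤ ‖form (m + 1) x (ap w₂⁻¹ vp)‖ + ‖form (m + 1) x (vp - ap w₂⁻¹ vp)‖ := by
          rw [e]; exact norm_add_le _ _
      _ ≤ M' + C * (‖x‖ * ε) := by
          refine add_le_add b1 ((hfl _ _).trans ?_)
          refine mul_le_mul_of_nonneg_left ?_ hCpos.le
          exact mul_le_mul_of_nonneg_left hw₂.2.1.le (norm_nonneg _)
      _ = M' + c / 2 * ‖x‖ := by rw [hε]; field_simp
  have b4 : ‖x‖ ≤ 2 * M' / c := by
    rw [le_div_iff₀ hc]; linarith
  have b5 : (k : ℝ) * (c / 2 * ‖u‖ / (C * M)) ≤ ‖x‖ := by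
    rw [← mul_div_assoc, div_le_iff₀ (by positivity)]
    linarith
  have hkN : (N : ℝ) < k := by exact_mod_cast hk
  have hpos : 0 < c / 2 * ‖u‖ / (C * M) := by positivity
  have b6 : (k : ℝ) ≤ 2 * M' / c / (c / 2 * ‖u‖ / (C * M)) := by
    rw [le_div_iff₀ hpos]; linarith
  linarith

end Pool.Agent.N765.HY
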