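import Pool.Agent.N765.HY.Lox
import Pool.Agent.N765.HY.Fin

/-!
# The theorem for lattices
-/

set_option autoImplicit false

open Matrix Filter Topology

namespace Pool.Agent.N765.HY

instance instSC (n : ℕ) : SecondCountableTopology (SU n) := by
  have h0 : SecondCountableTopology (Matrix (Fin (n + 1)) (Fin (n + 1)) ℂ) :=
    inferInstanceAs (SecondCountableTopology (Fin (n + 1) → Fin (n + 1) → ℂ))
  have h1 : SecondCountableTopology (SpecialLinearGroup (Fin (n + 1)) ℂ) :=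
    (SpecialLinearGroup.isClosedEmbedding_val (R := ℂ) (n := Fin (n + 1))).isEmbedding.secondCountableTopology
  exact (Topology.IsEmbedding.subtypeVal (p := fun g => g ∈ SU n)).secondCountableTopology

/-- Subgroups of finite covolume have the Selberg property. -/
theorem sel_of_cov {n : ℕ} (Γ : Subgroup (SU n)) (h : FiniteCovolume Γ) : Sel Γ :=
  fun a W hW h1 N => selberg Γ h a W hW h1 N

theorem lattice_ok {n : ℕ} (hn : 1 ≤ n) (Γ : Subgroup (SU n)) (h : FiniteCovolume Γ) :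
    (∃ h ∈ Γ, ∃ (v : Fin (n + 1) → ℂ) (l : ℂ), v ≠ 0 ∧ ap h v = l • v ∧ ‖l‖ ≠ 1) ∧
    (∀ v : Fin (n + 1) → ℂ, v ≠ 0 → form n v v = 0 → (Orb Γ v).Infinite) := by
  obtain ⟨m, rfl⟩ : ∃ m, n = m + 1 := ⟨n - 1, by omega⟩
  exact ⟨ex_lox m Γ (sel_of_cov Γ h), fun v h0 h1 => no_finite m Γ (sel_of_cov Γ h) v h0 h1⟩

end Pool.Agent.N765.HY
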