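import Pool.Agent.N765.HY.Lat

/-!
# Lattices of `SU(n, 1)` contain loxodromic elements
-/

set_option autoImplicit false

open Matrix ComplexConjugate Filter Topology

namespace Pool.Agent.N765.HY

/-- a matrix with large trace has an eigenvalue of modulus `≠ 1` -/
theorem big_trace {N : ℕ} (A : Matrix (Fin N) (Fin N) ℂ) (h : (N : ℝ) < ‖A.trace‖) :
    ∃ (v : Fin N → ℂ) (l : ℂ), v ≠ 0 ∧ A *ᵥ v = l • v ∧ ‖l‖ ≠ 1 := by
  by_contra hcon
  push Not at hcon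
  have h1 : ∀ r ∈ A.charpoly.roots, ‖r‖ ≤ 1 := by
    intro r hr
    have h2 : A.charpoly.IsRoot r := (Polynomial.mem_roots'.1 hr).2
    have h3 : (Matrix.scalar (Fin N) r - A).det = 0 := by
      rw [← Matrix.eval_charpoly]; exact h2
    obtain ⟨v, hv0, hv⟩ := Matrix.exists_mulVec_eq_zero_iff.2 h3
    have h4 : A *ᵥ v = r • v := by
      rw [Matrix.sub_mulVec, sub_eq_zero] at hv
      rw [← hv]
      funext i
      simp [Matrix.scalar_apply, Matrix.mulVec_diagonal]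
    exact (hcon v r hv0 h4).le
  have h2 : ‖A.trace‖ ≤ N := by
    rw [Matrix.trace_eq_sum_roots_charpoly]
    calc ‖A.charpoly.roots.sum‖ ≤ (A.charpoly.roots.map fun x => ‖x‖).sum :=
          norm_multiset_sum_le _
      _ ≤ (A.charpoly.roots.map fun x => ‖x‖).card • (1 : ℝ) := by
          refine Multiset.sum_le_card_nsmul _ _ ?_
          intro x hx
          obtain ⟨r, hr, rfl⟩ := Multiset.mem_map.1 hx
          exact h1 r hr
      _ ≤ N := by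
          rw [Multiset.card_map, nsmul_eq_mul, mul_one]
          have := Polynomial.card_roots' A.charpoly
          rw [Matrix.charpoly_natDegree_eq_dim, Fintype.card_fin] at this
          exact_mod_cast this
  linarith

theorem trace_em (m : ℕ) (M : Matrix (Fin 2) (Fin 2) ℂ) (w : Matrix (Fin (m + 2)) (Fin (m + 2)) ℂ) :
    (em m M * w).trace = w.trace + (M 0 0 - 1) * w 0 0 + M 0 1 * w 1 0 + M 1 0 * w 0 1 +
      (M 1 1 - 1) * w 1 1 := by
  have h : ∀ i, (em m M * w) i i = (em m M *ᵥ fun j => w j i) i := fun i => rfl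
  unfold Matrix.trace
  simp only [Matrix.diag_apply, h, em_mulVec]
  rw [Fin.sum_univ_succ, Fin.sum_univ_succ, Fin.sum_univ_succ (fun i => w i i),
    Fin.sum_univ_succ (fun i : Fin (m + 1) => w i.succ i.succ)]
  simp only [Fin.cons_zero, Fin.cons_succ]
  have e : (Fin.succ 0 : Fin (m + 2)) = 1 := rfl
  rw [e]
  ring

theorem ex_lox (m : ℕ) (Γ : Subgroup (SU (m + 1))) (hS : Sel Γ) :
    ∃ h ∈ Γ, ∃ (v : Fin (m + 1 + 1) → ℂ) (l : ℂ), v ≠ 0 ∧ ap h v = l • v ∧ ‖l‖ ≠ 1 := by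
  have hc : Continuous fun w : SU (m + 1) => w.1.1 := by
    have h1 : Continuous fun w : SU (m + 1) => (w.1 : SpecialLinearGroup (Fin (m + 1 + 1)) ℂ) :=
      continuous_subtype_val
    exact SpecialLinearGroup.isClosedEmbedding_val.continuous.comp h1
  have hce : ∀ i j, Continuous fun w : SU (m + 1) => w.1.1 i j := fun i j =>
    (continuous_apply_apply i j).comp hc
  have hct : Continuous fun w : SU (m + 1) => w.1.1.trace := hc.matrix_trace
  let V : Set (SU (m + 1)) := {w | ‖w.1.1.trace‖ < m + 3 ∧ 3 / 2 < ‖w.1.1 0 0 + w.1.1 1 1‖ ∧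
    ‖w.1.1 1 0 + w.1.1 0 1‖ < 1 / 2}
  have hVo : IsOpen V :=
    (isOpen_lt hct.norm continuous_const).inter
      ((isOpen_lt continuous_const ((hce 0 0).add (hce 1 1)).norm).inter
        (isOpen_lt ((hce 1 0).add (hce 0 1)).norm continuous_const))
  have h1val : (1 : SU (m + 1)).1.1 = (1 : Matrix (Fin (m + 2)) (Fin (m + 2)) ℂ) := rfl
  have hV1 : (1 : SU (m + 1)) ∈ V := by
    have e10 : (1 : Matrix (Fin (m + 2)) (Fin (m + 2)) ℂ) 1 0 = 0 := by
      rw [Matrix.one_apply_ne]; exact Fin.succ_ne_zero (0 : Fin (m + 1))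
    have e01 : (1 : Matrix (Fin (m + 2)) (Fin (m + 2)) ℂ) 0 1 = 0 := by
      rw [Matrix.one_apply_ne]; exact (Fin.succ_ne_zero (0 : Fin (m + 1))).symm
    refine ⟨?_, ?_, ?_⟩
    · rw [h1val, Matrix.trace_one, Fintype.card_fin]
      have : ‖(((m + 2 : ℕ) : ℂ))‖ = m + 2 := by
        rw [Complex.norm_natCast]; push_cast; ring
      rw [this]; linarith
    · rw [h1val, Matrix.one_apply_eq, Matrix.one_apply_eq]
      norm_num
    · rw [h1val]
      change ‖(1 : Matrix (Fin (m + 2)) (Fin (m + 2)) ℂ) 1 0 +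
        (1 : Matrix (Fin (m + 2)) (Fin (m + 2)) ℂ) 0 1‖ < 1 / 2
      rw [e10, e01]; norm_num
  obtain ⟨W', hW', hW'V⟩ := exists_nhds_split_inv (hVo.mem_nhds hV1)
  obtain ⟨W, hWW, hWo, hW1⟩ := mem_nhds_iff.1 hW'
  obtain ⟨k, hk, w₁, hw₁, w₂, hw₂, hγ⟩ := hS (boS m 1) W hWo hW1 (4 * m + 20)
  refine ⟨_, hγ, ?_⟩
  set w : SU (m + 1) := w₁ * w₂⁻¹ with hw
  have hwV : w ∈ V := by
    have := hW'V w₁ (hWW hw₁) w₂ (hWW hw₂)
    rw [div_eq_mul_inv] at this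
    exact this
  have htr : (w₂⁻¹ * boS m 1 ^ k * w₁).1.1.trace = (em m (bo k) * w.1.1).trace := by
    rw [← boS_pow]
    change ((w₂⁻¹).1.1 * (boS m 1 ^ k).1.1 * w₁.1.1).trace =
      ((boS m 1 ^ k).1.1 * (w₁.1.1 * (w₂⁻¹).1.1)).trace
    rw [Matrix.mul_assoc, Matrix.trace_mul_comm, Matrix.mul_assoc]
  apply big_trace
  rw [htr, trace_em]
  set c : ℝ := Real.cosh k with hc'
  set s : ℝ := Real.sinh k with hs'
  have hb00 : bo (k : ℝ) 0 0 = (c : ℂ) := rfl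
  have hb01 : bo (k : ℝ) 0 1 = (s : ℂ) := rfl
  have hb10 : bo (k : ℝ) 1 0 = (s : ℂ) := rfl
  have hb11 : bo (k : ℝ) 1 1 = (c : ℂ) := rfl
  rw [hb00, hb01, hb10, hb11]
  have hs0 : 0 ≤ s := Real.sinh_nonneg_iff.2 (Nat.cast_nonneg k)
  have hsc : s ≤ c := (Real.sinh_lt_cosh (k : ℝ)).le
  have hc1 : 1 ≤ c := Real.one_le_cosh _
  have hck : ((k : ℝ) + 1) / 2 ≤ c := by
    rw [hc', Real.cosh_eq]
    have := Real.add_one_le_exp (k : ℝ)
    have := Real.exp_pos (-(k : ℝ))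
    linarith
  have hk' : (4 * (m : ℝ) + 20) < k := by exact_mod_cast hk
  have e : w.1.1.trace + ((c : ℂ) - 1) * w.1.1 0 0 + (s : ℂ) * w.1.1 1 0 + (s : ℂ) * w.1.1 0 1 +
      ((c : ℂ) - 1) * w.1.1 1 1 = ((c : ℂ) - 1) * (w.1.1 0 0 + w.1.1 1 1) -
        (-(s : ℂ) * (w.1.1 1 0 + w.1.1 0 1) - w.1.1.trace) := by ring
  rw [e]
  have f1 : ‖((c : ℂ) - 1) * (w.1.1 0 0 + w.1.1 1 1)‖ = (c - 1) * ‖w.1.1 0 0 + w.1.1 1 1‖ := by
    rw [norm_mul]
    congr 1
    have : ((c : ℂ) - 1) = ((c - 1 : ℝ) : ℂ) := by push_cast; rfl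
    rw [this, Complex.norm_real, Real.norm_eq_abs, abs_of_nonneg (by linarith)]
  have f2 : ‖-(s : ℂ) * (w.1.1 1 0 + w.1.1 0 1) - w.1.1.trace‖ ≤ s * (1 / 2) + (m + 3) := by
    refine (norm_sub_le _ _).trans (add_le_add ?_ hwV.1.le)
    rw [norm_mul, norm_neg, Complex.norm_real, Real.norm_eq_abs, abs_of_nonneg hs0]
    exact mul_le_mul_of_nonneg_left hwV.2.2.le hs0
  have f3 := norm_sub_norm_le (((c : ℂ) - 1) * (w.1.1 0 0 + w.1.1 1 1))
    (-(s : ℂ) * (w.1.1 1 0 + w.1.1 0 1) - w.1.1.trace)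
  rw [f1] at f3
  have f4 : (c - 1) * (3 / 2) ≤ (c - 1) * ‖w.1.1 0 0 + w.1.1 1 1‖ :=
    mul_le_mul_of_nonneg_left hwV.2.1.le (by linarith)
  push_cast
  linarith

end Pool.Agent.N765.HY
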