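import Pool.Agent.N765.HY.Core

/-!
# Ping-pong in `SU(n, 1)`
-/

set_option autoImplicit false

open Matrix ComplexConjugate Filter Topology
open scoped Pointwise

namespace Pool.Agent.N765.HY

variable {n : ℕ}

/-- the vector `g z` -/
def ap (g : SU n) (z : Fin (n + 1) → ℂ) : Fin (n + 1) → ℂ := g.1.1 *ᵥ z

theorem ap_mul (g h : SU n) (z : Fin (n + 1) → ℂ) : ap (g * h) z = ap g (ap h z) := by
  unfold ap
  rw [mulVec_mulVec]
  rfl

theorem ap_one (z : Fin (n + 1) → ℂ) : ap (1 : SU n) z = z := by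
  unfold ap
  change (1 : Matrix _ _ ℂ) *ᵥ z = z
  rw [one_mulVec]

theorem ap_inv_ap (g : SU n) (z : Fin (n + 1) → ℂ) : ap g⁻¹ (ap g z) = z := by
  rw [← ap_mul, inv_mul_cancel, ap_one]

theorem ap_ap_inv (g : SU n) (z : Fin (n + 1) → ℂ) : ap g (ap g⁻¹ z) = z := by
  rw [← ap_mul, mul_inv_cancel, ap_one]

theorem ap_smul (g : SU n) (c : ℂ) (z : Fin (n + 1) → ℂ) : ap g (c • z) = c • ap g z := by
  unfold ap; rw [mulVec_smul]

theorem ap_zero (g : SU n) : ap g 0 = 0 := by unfold ap; rw [mulVec_zero]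

theorem ap_ne (g : SU n) {z : Fin (n + 1) → ℂ} (hz : z ≠ 0) : ap g z ≠ 0 := by
  intro h
  apply hz
  rw [← ap_inv_ap g z, h, ap_zero]

theorem ap_form (g : SU n) (z w : Fin (n + 1) → ℂ) : form n (ap g z) (ap g w) = form n z w :=
  g.2 z w

theorem form_ap (g : SU n) (z w : Fin (n + 1) → ℂ) : form n (ap g z) w = form n z (ap g⁻¹ w) := by
  conv_lhs => rw [← ap_ap_inv g w]
  rw [ap_form]

theorem ap_pow_inv (h : SU n) (v : Fin (n + 1) → ℂ) (c : ℂ) (hc : c ≠ 0) (hv : ap h v = c • v)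
    (m : ℕ) : ap (h ^ m)⁻¹ v = (c ^ m)⁻¹ • v := by
  have h1 : ap (h ^ m) v = c ^ m • v := by
    induction m with
    | zero => rw [pow_zero, pow_zero, ap_one, one_smul]
    | succ m ih => rw [pow_succ, ap_mul, hv, ap_smul, ih, smul_smul, pow_succ, mul_comm]
  have h2 : v = (c ^ m)⁻¹ • ap (h ^ m) v := by
    rw [h1, smul_smul, inv_mul_cancel₀ (pow_ne_zero _ hc), one_smul]
  conv_lhs => rw [h2]
  rw [ap_smul, ap_inv_ap]

/-- the null vectors -/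
def Nul (n : ℕ) : Type := {z : Fin (n + 1) → ℂ // z ≠ 0 ∧ form n z z = 0}

instance : MulAction (SU n) (Nul n) where
  smul g z := ⟨ap g z.1, ap_ne g z.2.1, by rw [ap_form]; exact z.2.2⟩
  one_smul z := Subtype.ext (ap_one z.1)
  mul_smul g h z := Subtype.ext (ap_mul g h z.1)

theorem smul_val (g : SU n) (z : Nul n) : (g • z).1 = ap g z.1 := rfl

/-- the null vectors close to the line of `a` -/
def Nb (a : Fin (n + 1) → ℂ) (δ : ℝ) : Set (Nul n) := {z | ‖form n z.1 a‖ < δ * ‖z.1‖}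

/-- the line of `a` -/
abbrev Ln (a : Fin (n + 1) → ℂ) : Submodule ℂ (Fin (n + 1) → ℂ) := Submodule.span ℂ {a}

theorem Ln_smul (c : ℂ) (a : Fin (n + 1) → ℂ) (h : c • a ≠ 0) : Ln (c • a) = Ln a := by
  have hc : c ≠ 0 := by
    rintro rfl
    exact h (zero_smul _ _)
  exact Submodule.span_singleton_smul_eq (IsUnit.mk0 c hc) a

theorem Ln_ap (g : SU n) {a b : Fin (n + 1) → ℂ} (h : Ln (ap g a) = Ln (ap g b)) (ha : a ≠ 0) :
    Ln a = Ln b := by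
  have h1 : ap g a ∈ Ln (ap g b) := by
    rw [← h]; exact Submodule.mem_span_singleton_self _
  obtain ⟨c, hc⟩ := Submodule.mem_span_singleton.1 h1
  have h2 : a = c • b := by
    rw [← ap_inv_ap g a, ← hc, ap_smul, ap_inv_ap]
  rw [h2]
  exact Ln_smul c b (h2 ▸ ha)

theorem form_continuous (a : Fin (n + 1) → ℂ) : Continuous fun z => form n z a := by
  unfold form
  fun_prop

theorem form_continuous' : Continuous fun z : Fin (n + 1) → ℂ => form n z z := by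
  unfold form
  have h : ∀ i : Fin (n + 1), Continuous fun z : Fin (n + 1) → ℂ => z i * conj (z i) := fun i =>
    (continuous_apply i).mul (Complex.continuous_conj.comp (continuous_apply i))
  exact (h 0).neg.add (continuous_finsetSum _ fun i _ => h i.succ)

theorem disj (a b : Fin (n + 1) → ℂ) (ha : form n a a = 0) (hb : form n b b = 0) (ha0 : a ≠ 0)
    (hb0 : b ≠ 0) (hab : Ln a ≠ Ln b) : ∀ᶠ δ in 𝓝[>] (0 : ℝ), Disjoint (Nb a δ) (Nb b δ) := by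
  set K : Set (Fin (n + 1) → ℂ) := Metric.sphere 0 1 ∩ {z | form n z z = 0} with hK
  have hKc : IsCompact K :=
    (isCompact_sphere _ _).inter_right (isClosed_eq form_continuous' continuous_const)
  have hmem : ∀ z : Nul n, ((‖z.1‖⁻¹ : ℝ) : ℂ) • z.1 ∈ K := by
    intro z
    have h0 : ‖z.1‖ ≠ 0 := norm_ne_zero_iff.2 z.2.1
    constructor
    · rw [mem_sphere_zero_iff_norm, norm_smul, Complex.norm_real, norm_inv, norm_norm,
        inv_mul_cancel₀ h0]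
    · change form n _ _ = 0
      rw [form_smul_left, form_smul_right, z.2.2, mul_zero, mul_zero]
  rcases K.eq_empty_or_nonempty with hKe | hKn
  · refine Eventually.of_forall fun δ => ?_
    rw [Set.disjoint_left]
    intro z _ _
    have := hmem z
    rw [hKe] at this
    exact this
  · obtain ⟨z₀, hz₀, hmin⟩ := hKc.exists_isMinOn hKn
      (((form_continuous a).norm.add (form_continuous b).norm).continuousOn)
    have hz₀0 : z₀ ≠ 0 := by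
      rintro rfl
      have := mem_sphere_zero_iff_norm.1 hz₀.1
      rw [norm_zero] at this
      exact zero_ne_one this
    have hpos : 0 < ‖form n z₀ a‖ + ‖form n z₀ b‖ := by
      by_contra hcon
      have h1 : ‖form n z₀ a‖ = 0 := by
        have := norm_nonneg (form n z₀ a); have := norm_nonneg (form n z₀ b); linarith
      have h2 : ‖form n z₀ b‖ = 0 := by
        have := norm_nonneg (form n z₀ a); have := norm_nonneg (form n z₀ b); linarith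
      obtain ⟨c, hc⟩ := null_prop n z₀ a hz₀.2 ha ha0 (norm_eq_zero.1 h1)
      obtain ⟨d, hd⟩ := null_prop n z₀ b hz₀.2 hb hb0 (norm_eq_zero.1 h2)
      apply hab
      rw [← Ln_smul c a (hc ▸ hz₀0), ← Ln_smul d b (hd ▸ hz₀0), ← hc, ← hd]
    have hev : ∀ᶠ δ in 𝓝[>] (0 : ℝ), δ < (‖form n z₀ a‖ + ‖form n z₀ b‖) / 2 :=
      (eventually_lt_nhds (by linarith : (0 : ℝ) < (‖form n z₀ a‖ + ‖form n z₀ b‖) / 2)).filter_mono
        nhdsWithin_le_nhds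
    filter_upwards [hev] with δ hδ
    rw [Set.disjoint_left]
    intro z hza hzb
    have h0 : 0 < ‖z.1‖ := norm_pos_iff.2 z.2.1
    have hm := hmin (hmem z)
    simp only [Set.mem_ofPred_eq, Pi.add_apply, form_smul_left, norm_mul, Complex.norm_real,
      norm_inv, norm_norm] at hm
    have h1 : ‖form n z.1 a‖ < δ * ‖z.1‖ := hza
    have h2 : ‖form n z.1 b‖ < δ * ‖z.1‖ := hzb
    have h3 : ‖z.1‖⁻¹ * ‖form n z.1 a‖ + ‖z.1‖⁻¹ * ‖form n z.1 b‖ < 2 * δ := by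
      have : ‖z.1‖⁻¹ * (‖form n z.1 a‖ + ‖form n z.1 b‖) < ‖z.1‖⁻¹ * (2 * δ * ‖z.1‖) :=
        mul_lt_mul_of_pos_left (by linarith) (inv_pos.2 h0)
      calc _ = ‖z.1‖⁻¹ * (‖form n z.1 a‖ + ‖form n z.1 b‖) := by ring
        _ < _ := this
        _ = 2 * δ := by field_simp
    linarith

theorem key (h t s : SU n) (v : Fin (n + 1) → ℂ) (c : ℂ) (hc : c ≠ 0) (hv : ap h v = c • v)
    (m : ℕ) (z : Fin (n + 1) → ℂ) :
    form n (ap (t * h ^ m * s⁻¹) z) (ap t v) = conj (c ^ m)⁻¹ * form n z (ap s v) := by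
  rw [form_ap, ← ap_mul, ← form_smul_right, ← ap_smul, ← ap_pow_inv h v c hc hv m, ← ap_mul]
  congr 2
  group

theorem dyn (h t s : SU n) (vp vm : Fin (n + 1) → ℂ) (l μ : ℂ) (hvp : ap h vp = l • vp)
    (hvm : ap h vm = μ • vm) (hl : ‖μ‖ < ‖l‖) (hμ : μ ≠ 0) (hvm0 : vm ≠ 0) (δ : ℝ) (hδ : 0 < δ) :
    ∀ᶠ m in (atTop : Filter ℕ), ∀ z : Fin (n + 1) → ℂ, z ≠ 0 →
      δ * ‖z‖ ≤ ‖form n z (ap s vm)‖ →
      ‖form n (ap (t * h ^ m * s⁻¹) z) (ap t vp)‖ < δ * ‖ap (t * h ^ m * s⁻¹) z‖ := by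
  have hl0 : 0 < ‖l‖ := lt_of_le_of_lt (norm_nonneg _) hl
  have hμ0 : 0 < ‖μ‖ := norm_pos_iff.2 hμ
  have hl' : l ≠ 0 := norm_pos_iff.1 hl0
  set C : ℝ := (n + 1) * ‖ap t vm‖ with hC
  set D : ℝ := (n + 1) * ‖ap s vp‖ with hD
  have hC0 : 0 < C := by
    have : 0 < ‖ap t vm‖ := norm_pos_iff.2 (ap_ne t hvm0)
    positivity
  have hD0 : 0 ≤ D := by positivity
  have hr : Tendsto (fun m : ℕ => (‖μ‖ / ‖l‖) ^ m * (D * C)) atTop (𝓝 (0 * (D * C))) :=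
    (tendsto_pow_atTop_nhds_zero_of_lt_one (by positivity) ((div_lt_one hl0).2 hl)).mul_const _
  rw [zero_mul] at hr
  filter_upwards [hr.eventually (gt_mem_nhds (by positivity : (0 : ℝ) < δ * δ))] with m hm z hz hzs
  set x := ap (t * h ^ m * s⁻¹) z with hx
  have hz0 : 0 < ‖z‖ := norm_pos_iff.2 hz
  have e1 : ‖form n x (ap t vp)‖ ≤ (‖l‖ ^ m)⁻¹ * (D * ‖z‖) := by
    rw [hx, key h t s vp l hl' hvp m z, norm_mul, RCLike.norm_conj, norm_inv, norm_pow]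
    refine mul_le_mul_of_nonneg_left ((form_norm_le n z _).trans (le_of_eq ?_)) (by positivity)
    rw [hD]; ring
  have e2 : (‖μ‖ ^ m)⁻¹ * (δ * ‖z‖) ≤ C * ‖x‖ := by
    have h1 : ‖form n x (ap t vm)‖ = (‖μ‖ ^ m)⁻¹ * ‖form n z (ap s vm)‖ := by
      rw [hx, key h t s vm μ hμ hvm m z, norm_mul, RCLike.norm_conj, norm_inv, norm_pow]
    calc (‖μ‖ ^ m)⁻¹ * (δ * ‖z‖) ≤ (‖μ‖ ^ m)⁻¹ * ‖form n z (ap s vm)‖ :=
          mul_le_mul_of_nonneg_left hzs (by positivity)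
      _ = ‖form n x (ap t vm)‖ := h1.symm
      _ ≤ (n + 1) * (‖x‖ * ‖ap t vm‖) := form_norm_le n _ _
      _ = C * ‖x‖ := by rw [hC]; ring
  have hμm : 0 < ‖μ‖ ^ m := by positivity
  have hlm : 0 < ‖l‖ ^ m := by positivity
  have e3 : (‖l‖ ^ m)⁻¹ * (D * ‖z‖) * C < δ * ((‖μ‖ ^ m)⁻¹ * (δ * ‖z‖)) := by
    have h1 : (‖l‖ ^ m)⁻¹ * (D * ‖z‖) * C = (‖μ‖ ^ m)⁻¹ * ((‖μ‖ / ‖l‖) ^ m * (D * C)) * ‖z‖ := by
      rw [div_pow]; field_simp
    rw [h1]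
    calc (‖μ‖ ^ m)⁻¹ * ((‖μ‖ / ‖l‖) ^ m * (D * C)) * ‖z‖ < (‖μ‖ ^ m)⁻¹ * (δ * δ) * ‖z‖ := by
          refine mul_lt_mul_of_pos_right (mul_lt_mul_of_pos_left hm (inv_pos.2 hμm)) hz0
      _ = δ * ((‖μ‖ ^ m)⁻¹ * (δ * ‖z‖)) := by ring
  have e4 : ‖form n x (ap t vp)‖ * C < δ * ‖x‖ * C := by
    calc ‖form n x (ap t vp)‖ * C ≤ (‖l‖ ^ m)⁻¹ * (D * ‖z‖) * C :=
          mul_le_mul_of_nonneg_right e1 hC0.le
      _ < δ * ((‖μ‖ ^ m)⁻¹ * (δ * ‖z‖)) := e3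
      _ ≤ δ * (C * ‖x‖) := mul_le_mul_of_nonneg_left e2 hδ.le
      _ = δ * ‖x‖ * C := by ring
  exact lt_of_mul_lt_mul_right e4 hC0.le

/-- Ping-pong. -/
theorem pp {k : ℕ} (hk : 2 ≤ k) (h : SU n) (vp vm : Fin (n + 1) → ℂ) (l μ : ℂ)
    (hvp : ap h vp = l • vp) (hvm : ap h vm = μ • vm) (hl : ‖μ‖ < ‖l‖) (hμ : μ ≠ 0)
    (hvp0 : vp ≠ 0) (hvm0 : vm ≠ 0) (hnp : form n vp vp = 0) (hnm : form n vm vm = 0)
    (t s : Fin k → SU n) (ht : ∀ i j, i ≠ j → Ln (ap (t i) vp) ≠ Ln (ap (t j) vp))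
    (hs : ∀ i j, i ≠ j → Ln (ap (s i) vm) ≠ Ln (ap (s j) vm))
    (hts : ∀ i j, Ln (ap (t i) vp) ≠ Ln (ap (s j) vm)) :
    ∀ᶠ m in (atTop : Filter ℕ),
      Function.Injective (FreeGroup.lift fun i => t i * h ^ m * (s i)⁻¹) := by
  have hnp' : ∀ g : SU n, form n (ap g vp) (ap g vp) = 0 := fun g => by rw [ap_form, hnp]
  have hnm' : ∀ g : SU n, form n (ap g vm) (ap g vm) = 0 := fun g => by rw [ap_form, hnm]
  have d1 : ∀ᶠ δ in 𝓝[>] (0 : ℝ), ∀ i j, i ≠ j →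
      Disjoint (Nb (ap (t i) vp) δ) (Nb (ap (t j) vp) δ) := by
    rw [eventually_all]; intro i; rw [eventually_all]; intro j
    by_cases hij : i = j
    · exact Eventually.of_forall fun _ h => absurd hij h
    · exact (disj _ _ (hnp' _) (hnp' _) (ap_ne _ hvp0) (ap_ne _ hvp0) (ht i j hij)).mono
        fun _ h _ => h
  have d2 : ∀ᶠ δ in 𝓝[>] (0 : ℝ), ∀ i j, i ≠ j →
      Disjoint (Nb (ap (s i) vm) δ) (Nb (ap (s j) vm) δ) := by
    rw [eventually_all]; intro i; rw [eventually_all]; intro j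
    by_cases hij : i = j
    · exact Eventually.of_forall fun _ h => absurd hij h
    · exact (disj _ _ (hnm' _) (hnm' _) (ap_ne _ hvm0) (ap_ne _ hvm0) (hs i j hij)).mono
        fun _ h _ => h
  have d3 : ∀ᶠ δ in 𝓝[>] (0 : ℝ), ∀ i j,
      Disjoint (Nb (ap (t i) vp) δ) (Nb (ap (s j) vm) δ) := by
    rw [eventually_all]; intro i; rw [eventually_all]; intro j
    exact disj _ _ (hnp' _) (hnm' _) (ap_ne _ hvp0) (ap_ne _ hvm0) (hts i j)
  obtain ⟨δ, ⟨⟨h1, h2⟩, h3⟩, hδ⟩ := (((d1.and d2).and d3).and self_mem_nhdsWithin).exists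
  have hδ' : (0 : ℝ) < δ := hδ
  have hl0 : 0 < ‖l‖ := lt_of_le_of_lt (norm_nonneg _) hl
  have hl' : l ≠ 0 := norm_pos_iff.1 hl0
  have hμ0 : 0 < ‖μ‖ := norm_pos_iff.2 hμ
  have hvp' : ap h⁻¹ vp = l⁻¹ • vp := by
    have := ap_pow_inv h vp l hl' hvp 1
    simpa using this
  have hvm' : ap h⁻¹ vm = μ⁻¹ • vm := by
    have := ap_pow_inv h vm μ hμ hvm 1
    simpa using this
  have hl2 : ‖l⁻¹‖ < ‖μ⁻¹‖ := by
    rw [norm_inv, norm_inv]
    exact (inv_lt_inv₀ hl0 hμ0).2 hl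
  have e1 : ∀ᶠ m in (atTop : Filter ℕ), ∀ i, ∀ z : Fin (n + 1) → ℂ, z ≠ 0 →
      δ * ‖z‖ ≤ ‖form n z (ap (s i) vm)‖ →
      ‖form n (ap (t i * h ^ m * (s i)⁻¹) z) (ap (t i) vp)‖ <
        δ * ‖ap (t i * h ^ m * (s i)⁻¹) z‖ := by
    rw [eventually_all]; intro i
    exact dyn h (t i) (s i) vp vm l μ hvp hvm hl hμ hvm0 δ hδ'
  have e2 : ∀ᶠ m in (atTop : Filter ℕ), ∀ i, ∀ z : Fin (n + 1) → ℂ, z ≠ 0 →
      δ * ‖z‖ ≤ ‖form n z (ap (t i) vp)‖ →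
      ‖form n (ap (s i * h⁻¹ ^ m * (t i)⁻¹) z) (ap (s i) vm)‖ <
        δ * ‖ap (s i * h⁻¹ ^ m * (t i)⁻¹) z‖ := by
    rw [eventually_all]; intro i
    exact dyn h⁻¹ (s i) (t i) vm vp μ⁻¹ l⁻¹ hvm' hvp' hl2 (inv_ne_zero hl') hvp0 δ hδ'
  filter_upwards [e1, e2] with m hm1 hm2
  have : Nontrivial (Fin k) := by
    obtain ⟨k', rfl⟩ := Nat.exists_eq_add_of_le hk
    exact ⟨⟨⟨0, by omega⟩, ⟨1, by omega⟩, by simp⟩⟩
  refine FreeGroup.injective_lift_of_ping_pong (α := Nul n) _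
    (fun i => Nb (ap (t i) vp) δ) (fun i => Nb (ap (s i) vm) δ) ?_ ?_ ?_ ?_ ?_ ?_
  · intro i
    refine ⟨⟨ap (t i) vp, ap_ne _ hvp0, hnp' _⟩, ?_⟩
    change ‖form n (ap (t i) vp) (ap (t i) vp)‖ < δ * ‖ap (t i) vp‖
    rw [hnp', norm_zero]
    exact mul_pos hδ' (norm_pos_iff.2 (ap_ne _ hvp0))
  · intro i j hij
    exact h1 i j hij
  · intro i j hij
    exact h2 i j hij
  · intro i j
    exact h3 i j
  · rintro i _ ⟨z, hz, rfl⟩
    have hz' : δ * ‖z.1‖ ≤ ‖form n z.1 (ap (s i) vm)‖ := not_lt.1 hz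
    exact hm1 i z.1 z.2.1 hz'
  · rintro i _ ⟨z, hz, rfl⟩
    have hz' : δ * ‖z.1‖ ≤ ‖form n z.1 (ap (t i) vp)‖ := not_lt.1 hz
    have e : (fun i => t i * h ^ m * (s i)⁻¹)⁻¹ i = s i * h⁻¹ ^ m * (t i)⁻¹ := by
      change (t i * h ^ m * (s i)⁻¹)⁻¹ = _
      rw [_root_.mul_inv_rev, _root_.mul_inv_rev, inv_inv, inv_pow, mul_assoc]
    change ‖form n (ap ((fun i => t i * h ^ m * (s i)⁻¹)⁻¹ i) z.1) (ap (s i) vm)‖ <
      δ * ‖ap ((fun i => t i * h ^ m * (s i)⁻¹)⁻¹ i) z.1‖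
    rw [e]
    exact hm2 i z.1 z.2.1 hz'

end Pool.Agent.N765.HY
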