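import Mathlib

/-!
# Free subgroups of finite index of `SL(2, ℤ)`
-/

set_option autoImplicit false

open Matrix
open scoped Pointwise

namespace Pool.Agent.N765.HY.SL2

/-- `SL(2, ℤ)` -/
abbrev G2 : Type := SpecialLinearGroup (Fin 2) ℤ

/-- `(x, y) ↦ (x + 2 c y, y)` -/
def A (c : ℤ) : G2 := ⟨!![1, 2 * c; 0, 1], by simp [Matrix.det_fin_two]⟩

/-- `(x, y) ↦ (x, y + 2 c x)` -/
def B (c : ℤ) : G2 := ⟨!![1, 0; 2 * c, 1], by simp [Matrix.det_fin_two]⟩

theorem A_add (c d : ℤ) : A c * A d = A (c + d) := by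
  apply Subtype.ext
  change !![1, 2 * c; 0, 1] * !![1, 2 * d; 0, 1] = !![1, 2 * (c + d); 0, 1]
  ext i j
  fin_cases i <;> fin_cases j <;> simp [Matrix.mul_fin_two] <;> ring

theorem B_add (c d : ℤ) : B c * B d = B (c + d) := by
  apply Subtype.ext
  change !![1, 0; 2 * c, 1] * !![1, 0; 2 * d, 1] = !![1, 0; 2 * (c + d), 1]
  ext i j
  fin_cases i <;> fin_cases j <;> simp [Matrix.mul_fin_two] <;> ring

theorem A_zero : A 0 = 1 := by
  apply Subtype.ext
  change !![1, 2 * 0; 0, 1] = (1 : Matrix _ _ ℤ)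
  ext i j
  fin_cases i <;> fin_cases j <;> simp

theorem B_zero : B 0 = 1 := by
  apply Subtype.ext
  change !![1, 0; 2 * 0, 1] = (1 : Matrix _ _ ℤ)
  ext i j
  fin_cases i <;> fin_cases j <;> simp

theorem A_inv (c : ℤ) : (A c)⁻¹ = A (-c) := by
  rw [inv_eq_iff_mul_eq_one, A_add, add_neg_cancel, A_zero]

theorem B_inv (c : ℤ) : (B c)⁻¹ = B (-c) := by
  rw [inv_eq_iff_mul_eq_one, B_add, add_neg_cancel, B_zero]

theorem A_zpow (c : ℤ) : A c = A 1 ^ c := by
  induction c using Int.induction_on with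
  | zero => rw [zpow_zero, A_zero]
  | succ i ih => rw [_root_.zpow_add_one, ← ih, A_add]
  | pred i ih => rw [_root_.zpow_sub_one, ← ih, A_inv, A_add, sub_eq_add_neg]

theorem B_zpow (c : ℤ) : B c = B 1 ^ c := by
  induction c using Int.induction_on with
  | zero => rw [zpow_zero, B_zero]
  | succ i ih => rw [_root_.zpow_add_one, ← ih, B_add]
  | pred i ih => rw [_root_.zpow_sub_one, ← ih, B_inv, B_add, sub_eq_add_neg]

/-- the nonzero integral vectors -/
def Vc : Type := {v : Fin 2 → ℤ // v ≠ 0}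

theorem mulVec_inj (g : G2) (v : Fin 2 → ℤ) (hv : v ≠ 0) : g.1 *ᵥ v ≠ 0 := by
  intro h
  apply hv
  have e : (g⁻¹).1 *ᵥ (g.1 *ᵥ v) = v := by
    rw [mulVec_mulVec]
    have : (g⁻¹).1 * g.1 = 1 := congrArg Subtype.val (inv_mul_cancel g)
    rw [this, one_mulVec]
  rw [← e, h, mulVec_zero]

instance : MulAction G2 Vc where
  smul g v := ⟨g.1 *ᵥ v.1, mulVec_inj g v.1 v.2⟩
  one_smul v := Subtype.ext (by
    change (1 : Matrix _ _ ℤ) *ᵥ v.1 = v.1
    rw [one_mulVec])
  mul_smul g h v := Subtype.ext (by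
    change (g.1 * h.1) *ᵥ v.1 = g.1 *ᵥ (h.1 *ᵥ v.1)
    rw [mulVec_mulVec])

theorem A_smul0 (c : ℤ) (v : Vc) : (A c • v).1 0 = v.1 0 + 2 * c * v.1 1 := by
  change (!![1, 2 * c; 0, 1] *ᵥ v.1) 0 = _
  simp [Matrix.mulVec, dotProduct, Fin.sum_univ_two]

theorem A_smul1 (c : ℤ) (v : Vc) : (A c • v).1 1 = v.1 1 := by
  change (!![1, 2 * c; 0, 1] *ᵥ v.1) 1 = _
  simp [Matrix.mulVec, dotProduct, Fin.sum_univ_two]

theorem B_smul0 (c : ℤ) (v : Vc) : (B c • v).1 0 = v.1 0 := by
  change (!![1, 0; 2 * c, 1] *ᵥ v.1) 0 = _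
  simp [Matrix.mulVec, dotProduct, Fin.sum_univ_two]

theorem B_smul1 (c : ℤ) (v : Vc) : (B c • v).1 1 = v.1 1 + 2 * c * v.1 0 := by
  change (!![1, 0; 2 * c, 1] *ᵥ v.1) 1 = _
  simp [Matrix.mulVec, dotProduct, Fin.sum_univ_two]
  ring

/-- the slope `x / y` -/
def sl (v : Vc) : ℚ := (v.1 0 : ℚ) / (v.1 1 : ℚ)

theorem sl_A (c : ℤ) (v : Vc) (h : v.1 1 ≠ 0) : sl (A c • v) = sl v + 2 * c := by
  have h' : (v.1 1 : ℚ) ≠ 0 := by exact_mod_cast h
  unfold sl
  rw [A_smul0, A_smul1]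
  push_cast
  field_simp

/-- the attracting set of `A c B A⁻ᶜ` -/
def XB (c : ℤ) : Set Vc := {v | v.1 1 ≠ 0 ∧ 2 * (c : ℚ) ≤ sl v ∧ sl v ≤ 2 * c + 1}

/-- the repelling set of `A c B A⁻ᶜ` -/
def YB (c : ℤ) : Set Vc := {v | v.1 1 ≠ 0 ∧ 2 * (c : ℚ) - 1 < sl v ∧ sl v < 2 * c}

/-- the attracting set of `A k` -/
def XA (k : ℤ) : Set Vc := {v | v.1 1 = 0 ∨ 2 * (k : ℚ) - 1 < sl v}

/-- the repelling set of `A k` -/
def YA : Set Vc := {v | v.1 1 ≠ 0 ∧ sl v ≤ -1}

theorem B_pos (v : Vc) (h : v ∉ YB 0) : B 1 • v ∈ XB 0 := by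
  have h0 := B_smul0 1 v
  have h1 := B_smul1 1 v
  simp only [YB, Set.mem_ofPred_eq, Int.cast_zero, mul_zero, zero_sub, not_and, not_lt] at h
  simp only [XB, Set.mem_ofPred_eq, Int.cast_zero, mul_zero, zero_add]
  unfold sl at *
  rw [h0, h1]
  by_cases hy : v.1 1 = 0
  · have hx : v.1 0 ≠ 0 := fun hx => v.2 (by
      funext i; fin_cases i
      · exact hx
      · exact hy)
    have hx' : (v.1 0 : ℚ) ≠ 0 := by exact_mod_cast hx
    rw [hy]
    refine ⟨by omega, ?_, ?_⟩
    · have : ((v.1 0 : ℤ) : ℚ) / ((0 + 2 * 1 * v.1 0 : ℤ) : ℚ) = 1 / 2 := by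
        push_cast; field_simp; ring
      rw [this]; norm_num
    · have : ((v.1 0 : ℤ) : ℚ) / ((0 + 2 * 1 * v.1 0 : ℤ) : ℚ) = 1 / 2 := by
        push_cast; field_simp; ring
      rw [this]; norm_num
  · have hy' : (v.1 1 : ℚ) ≠ 0 := by exact_mod_cast hy
    set r : ℚ := (v.1 0 : ℚ) / (v.1 1 : ℚ) with hr
    have hx : (v.1 0 : ℚ) = r * v.1 1 := by rw [hr]; field_simp
    have hr0 : 0 ≤ r ∨ r ≤ -1 := by
      by_contra hcon
      push Not at hcon
      exact absurd (h hy hcon.2) (not_le.2 hcon.1)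
    have hd : (1 + 2 * r) ≠ 0 := by
      rcases hr0 with h2 | h2
      · linarith
      · linarith
    have he : ((v.1 1 + 2 * 1 * v.1 0 : ℤ) : ℚ) = (1 + 2 * r) * v.1 1 := by
      push_cast; rw [hx]; ring
    have hne : v.1 1 + 2 * 1 * v.1 0 ≠ 0 := by
      intro h3
      rw [h3] at he
      have := mul_ne_zero hd hy'
      apply this
      rw [← he]; simp
    have hq : ((v.1 0 : ℤ) : ℚ) / ((v.1 1 + 2 * 1 * v.1 0 : ℤ) : ℚ) = r / (1 + 2 * r) := by
      rw [he, hx, mul_div_mul_right _ _ hy']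
    rw [hq]
    refine ⟨hne, ?_, ?_⟩
    · rcases hr0 with h2 | h2
      · positivity
      · exact div_nonneg_of_nonpos (by linarith) (by linarith)
    · rcases hr0 with h2 | h2
      · rw [div_le_one (by linarith)]; linarith
      · rw [div_le_one_of_neg (by linarith)]; linarith

theorem B_neg (v : Vc) (h : v ∉ XB 0) : B (-1) • v ∈ YB 0 := by
  have h0 := B_smul0 (-1) v
  have h1 := B_smul1 (-1) v
  simp only [XB, Set.mem_ofPred_eq, Int.cast_zero, mul_zero, zero_add, not_and, not_le] at h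
  simp only [YB, Set.mem_ofPred_eq, Int.cast_zero, mul_zero, zero_sub]
  unfold sl at *
  rw [h0, h1]
  by_cases hy : v.1 1 = 0
  · have hx : v.1 0 ≠ 0 := fun hx => v.2 (by
      funext i; fin_cases i
      · exact hx
      · exact hy)
    have hx' : (v.1 0 : ℚ) ≠ 0 := by exact_mod_cast hx
    rw [hy]
    have : ((v.1 0 : ℤ) : ℚ) / ((0 + 2 * (-1) * v.1 0 : ℤ) : ℚ) = -(1 / 2) := by
      push_cast; field_simp; ring
    rw [this]
    refine ⟨by omega, by norm_num, by norm_num⟩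
  · have hy' : (v.1 1 : ℚ) ≠ 0 := by exact_mod_cast hy
    set r : ℚ := (v.1 0 : ℚ) / (v.1 1 : ℚ) with hr
    have hx : (v.1 0 : ℚ) = r * v.1 1 := by rw [hr]; field_simp
    have hr0 : r < 0 ∨ 1 < r := by
      by_contra hcon
      push Not at hcon
      exact absurd (h hy hcon.1) (not_lt.2 hcon.2)
    have hd : (1 - 2 * r) ≠ 0 := by
      rcases hr0 with h2 | h2
      · linarith
      · linarith
    have he : ((v.1 1 + 2 * (-1) * v.1 0 : ℤ) : ℚ) = (1 - 2 * r) * v.1 1 := by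
      push_cast; rw [hx]; ring
    have hne : v.1 1 + 2 * (-1) * v.1 0 ≠ 0 := by
      intro h3
      rw [h3] at he
      have := mul_ne_zero hd hy'
      apply this
      rw [← he]; simp
    have hq : ((v.1 0 : ℤ) : ℚ) / ((v.1 1 + 2 * (-1) * v.1 0 : ℤ) : ℚ) = r / (1 - 2 * r) := by
      rw [he, hx, mul_div_mul_right _ _ hy']
    rw [hq]
    refine ⟨hne, ?_, ?_⟩
    · rcases hr0 with h2 | h2
      · rw [lt_div_iff₀ (by linarith)]; linarith
      · rw [lt_div_iff_of_neg (by linarith)]; linarith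
    · rcases hr0 with h2 | h2
      · exact div_neg_of_neg_of_pos h2 (by linarith)
      · exact div_neg_of_pos_of_neg (by linarith) (by linarith)

theorem A_XB (c : ℤ) (v : Vc) : A (-c) • v ∈ XB 0 ↔ v ∈ XB c := by
  simp only [XB, Set.mem_ofPred_eq, A_smul1]
  constructor
  · rintro ⟨h1, h2, h3⟩
    rw [sl_A _ _ h1] at h2 h3
    push_cast at h2 h3
    exact ⟨h1, by linarith, by linarith⟩
  · rintro ⟨h1, h2, h3⟩
    rw [sl_A _ _ h1]
    push_cast
    exact ⟨h1, by linarith, by linarith⟩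

theorem A_YB (c : ℤ) (v : Vc) : A (-c) • v ∈ YB 0 ↔ v ∈ YB c := by
  simp only [YB, Set.mem_ofPred_eq, A_smul1]
  constructor
  · rintro ⟨h1, h2, h3⟩
    rw [sl_A _ _ h1] at h2 h3
    push_cast at h2 h3
    exact ⟨h1, by linarith, by linarith⟩
  · rintro ⟨h1, h2, h3⟩
    rw [sl_A _ _ h1]
    push_cast
    exact ⟨h1, by linarith, by linarith⟩

theorem conj_pos (c : ℤ) (v : Vc) (h : v ∉ YB c) : (A c * B 1 * A (-c)) • v ∈ XB c := by
  rw [← A_XB, mul_smul, mul_smul, ← mul_smul (A (-c)) (A c), A_add, neg_add_cancel, A_zero, one_smul]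
  exact B_pos _ fun h' => h ((A_YB c v).1 h')

theorem conj_neg (c : ℤ) (v : Vc) (h : v ∉ XB c) : (A c * B (-1) * A (-c)) • v ∈ YB c := by
  rw [← A_YB, mul_smul, mul_smul, ← mul_smul (A (-c)) (A c), A_add, neg_add_cancel, A_zero, one_smul]
  exact B_neg _ fun h' => h ((A_XB c v).1 h')

/-- the generators of `Δ k`: `A k` and `A c B A⁻ᶜ`, `0 ≤ c < k` -/
def gens (k : ℕ) : Fin (k + 1) → G2 :=
  Fin.cons (A k) fun i : Fin k => A (i : ℕ) * B 1 * A (-(i : ℕ))

theorem gens_inj (k : ℕ) (hk : 1 ≤ k) : Function.Injective (FreeGroup.lift (gens k)) := by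
  have : Nontrivial (Fin (k + 1)) := ⟨⟨0, Fin.last k, by
    intro h; have := congrArg Fin.val h; simp at this; omega⟩⟩
  refine FreeGroup.injective_lift_of_ping_pong (α := Vc) (gens k)
    (Fin.cons (XA k) fun i : Fin k => XB (i : ℕ)) (Fin.cons YA fun i : Fin k => YB (i : ℕ))
    ?_ ?_ ?_ ?_ ?_ ?_
  · intro i
    refine Fin.cases ?_ (fun i => ?_) i
    · exact ⟨⟨![1, 0], fun h => by simpa using congrFun h 0⟩, Or.inl (by simp)⟩
    · refine ⟨⟨![2 * (i : ℕ), 1], fun h => by simpa using congrFun h 1⟩, ?_, ?_, ?_⟩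
      · simp
      · simp [sl]
      · simp [sl]
  · intro i j
    refine Fin.cases ?_ (fun i => ?_) i
    · refine Fin.cases ?_ (fun j => ?_) j
      · intro h; exact absurd rfl h
      · intro _
        simp only [Function.onFun, Fin.cons_zero, Fin.cons_succ]
        rw [Set.disjoint_left]
        rintro v h1 ⟨h2, h3, h4⟩
        have hj : ((j : ℕ) : ℚ) + 1 ≤ k := by exact_mod_cast j.2
        rcases h1 with h1 | h1
        · exact h2 h1
        · push_cast at h1 h3 h4; linarith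
    · refine Fin.cases ?_ (fun j => ?_) j
      · intro _
        simp only [Function.onFun, Fin.cons_zero, Fin.cons_succ]
        rw [Set.disjoint_left]
        rintro v ⟨h2, h3, h4⟩ h1
        have hj : ((i : ℕ) : ℚ) + 1 ≤ k := by exact_mod_cast i.2
        rcases h1 with h1 | h1
        · exact h2 h1
        · push_cast at h1 h3 h4; linarith
      · intro hij
        simp only [Function.onFun, Fin.cons_succ]
        rw [Set.disjoint_left]
        rintro v ⟨h2, h3, h4⟩ ⟨h5, h6, h7⟩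
        have hne : (i : ℕ) ≠ (j : ℕ) := fun h => hij (by rw [Fin.ext h])
        push_cast at h3 h4 h6 h7
        rcases lt_or_gt_of_ne hne with h | h
        · have : ((i : ℕ) : ℚ) + 1 ≤ (j : ℕ) := by exact_mod_cast h
          linarith
        · have : ((j : ℕ) : ℚ) + 1 ≤ (i : ℕ) := by exact_mod_cast h
          linarith
  · intro i j
    refine Fin.cases ?_ (fun i => ?_) i
    · refine Fin.cases ?_ (fun j => ?_) j
      · intro h; exact absurd rfl h
      · intro _
        simp only [Function.onFun, Fin.cons_zero, Fin.cons_succ]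
        rw [Set.disjoint_left]
        rintro v ⟨h1, h1'⟩ ⟨h2, h3, h4⟩
        have hj : (0 : ℚ) ≤ (j : ℕ) := Nat.cast_nonneg _
        push_cast at h3 h4; linarith
    · refine Fin.cases ?_ (fun j => ?_) j
      · intro _
        simp only [Function.onFun, Fin.cons_zero, Fin.cons_succ]
        rw [Set.disjoint_left]
        rintro v ⟨h2, h3, h4⟩ ⟨h1, h1'⟩
        have hj : (0 : ℚ) ≤ (i : ℕ) := Nat.cast_nonneg _
        push_cast at h3 h4; linarith
      · intro hij
        simp only [Function.onFun, Fin.cons_succ]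
        rw [Set.disjoint_left]
        rintro v ⟨h2, h3, h4⟩ ⟨h5, h6, h7⟩
        have hne : (i : ℕ) ≠ (j : ℕ) := fun h => hij (by rw [Fin.ext h])
        push_cast at h3 h4 h6 h7
        rcases lt_or_gt_of_ne hne with h | h
        · have : ((i : ℕ) : ℚ) + 1 ≤ (j : ℕ) := by exact_mod_cast h
          linarith
        · have : ((j : ℕ) : ℚ) + 1 ≤ (i : ℕ) := by exact_mod_cast h
          linarith
  · intro i j
    refine Fin.cases ?_ (fun i => ?_) i
    · refine Fin.cases ?_ (fun j => ?_) j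
      · simp only [Fin.cons_zero]
        rw [Set.disjoint_left]
        rintro v h1 ⟨h2, h3⟩
        have hk' : (1 : ℚ) ≤ k := by exact_mod_cast hk
        rcases h1 with h1 | h1
        · exact h2 h1
        · push_cast at h1; linarith
      · simp only [Fin.cons_zero, Fin.cons_succ]
        rw [Set.disjoint_left]
        rintro v h1 ⟨h2, h3, h4⟩
        have hj : ((j : ℕ) : ℚ) + 1 ≤ k := by exact_mod_cast j.2
        rcases h1 with h1 | h1
        · exact h2 h1
        · push_cast at h1 h3 h4; linarith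
    · refine Fin.cases ?_ (fun j => ?_) j
      · simp only [Fin.cons_zero, Fin.cons_succ]
        rw [Set.disjoint_left]
        rintro v ⟨h2, h3, h4⟩ ⟨h1, h1'⟩
        have hj : (0 : ℚ) ≤ (i : ℕ) := Nat.cast_nonneg _
        push_cast at h3 h4; linarith
      · simp only [Fin.cons_succ]
        rw [Set.disjoint_left]
        rintro v ⟨h2, h3, h4⟩ ⟨h5, h6, h7⟩
        push_cast at h3 h4 h6 h7
        rcases lt_trichotomy (i : ℕ) (j : ℕ) with h | h | h
        · have : ((i : ℕ) : ℚ) + 1 ≤ (j : ℕ) := by exact_mod_cast h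
          linarith
        · rw [h] at h3; linarith
        · have : ((j : ℕ) : ℚ) + 1 ≤ (i : ℕ) := by exact_mod_cast h
          linarith
  · intro i
    refine Fin.cases ?_ (fun i => ?_) i
    · simp only [Fin.cons_zero, gens]
      rintro _ ⟨v, hv, rfl⟩
      change A (k : ℤ) • v ∈ XA k
      by_cases h : v.1 1 = 0
      · left; rw [A_smul1]; exact h
      · right
        rw [sl_A _ _ h]
        have : -1 < sl v := not_le.1 fun h' => hv ⟨h, h'⟩
        push_cast
        linarith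
    · simp only [Fin.cons_succ, gens]
      rintro _ ⟨v, hv, rfl⟩
      exact conj_pos _ v hv
  · intro i
    refine Fin.cases ?_ (fun i => ?_) i
    · simp only [Fin.cons_zero]
      rintro _ ⟨v, hv, rfl⟩
      have e : (gens k)⁻¹ 0 = A (-(k : ℤ)) := by
        change (gens k 0)⁻¹ = _
        rw [gens, Fin.cons_zero, A_inv]
      change (gens k)⁻¹ 0 • v ∈ YA
      rw [e]
      have hv1 : v.1 1 ≠ 0 := fun h => hv (Or.inl h)
      have hv2 : sl v ≤ 2 * (k : ℚ) - 1 := not_lt.1 fun h => hv (Or.inr h)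
      refine ⟨by rw [A_smul1]; exact hv1, ?_⟩
      rw [sl_A _ _ hv1]
      push_cast
      linarith
    · simp only [Fin.cons_succ]
      rintro _ ⟨v, hv, rfl⟩
      have e : (gens k)⁻¹ i.succ = A (i : ℕ) * B (-1) * A (-(i : ℕ)) := by
        change (gens k i.succ)⁻¹ = _
        rw [gens, Fin.cons_succ, _root_.mul_inv_rev, _root_.mul_inv_rev, A_inv, A_inv, B_inv,
          neg_neg, mul_assoc]
      change (gens k)⁻¹ i.succ • v ∈ YB (i : ℕ)
      rw [e]
      exact conj_neg _ v hv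

end Pool.Agent.N765.HY.SL2
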